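import Pool.Agent.H671R2.PolyAuto

/-!
# The sampling algorithm, as a step function with coins

`nf a` is the number of elements, `ind (a, y)` says whether the set of elements with mask `y` is
independent, `out (a, y)` is the output for the basis with mask `y`.
-/

set_option autoImplicit false

namespace Pool.Agent.H73.ST

open Pool.Agent Pool.Agent.NPC

/-- the mask `y` of length `N` with the bit `k` set -/
def setT (N k : ℕ) (y : List Bool) : List Bool :=
  (List.range N).map fun i => if i = k then true else y.getD i false

/-- the mask `y` of length `N` with the bits `i` and `j` exchanged -/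
def swp (N i j : ℕ) (y : List Bool) : List Bool :=
  (List.range N).map fun k => y.getD (if k = i then j else if k = j then i else k) false

/-- the number of elements of a mask -/
def cntT (y : List Bool) : ℕ := (y.filter fun b => b).length

/-- the greedy basis -/
def grd (N : ℕ) (I : List Bool → Bool) : List Bool :=
  (List.range N).foldl (fun y k => if I (setT N k y) = true then setT N k y else y)
    ((List.range N).map fun _ => false)

/-- the move with number `v = i * B + j`: exchange the bits `i` and `j` if the result is
independent -/
def mov (N B : ℕ) (I : List Bool → Bool) (v : ℕ) (y : List Bool) : List Bool :=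
  if v / B < N ∧ v % B < N ∧ I (swp N (v / B) (v % B) y) = true then swp N (v / B) (v % B) y else y

/-- half of the number of coins of a move -/
def m0 (N : ℕ) : ℕ := N.size + 1

/-- the walk has `2 * tt N s` moves -/
def tt (N s : ℕ) : ℕ := 2 ^ (2 * m0 N) * (N + s)

/-- the number of coins of a walk -/
def mm (N s : ℕ) : ℕ := 2 * m0 N * (2 * tt N s)

/-- look up the value of `y` -/
def look (Z : List (List Bool × ℕ)) (y : List Bool) : ℕ :=
  (((Z.filter fun p => decide (p.1 = y)).map fun p => p.2).head?).getD 0

/-- one step of the dynamic program -/
def dstep (N : ℕ) (I : List Bool → Bool) (Z : List (List Bool × ℕ)) : List (List Bool × ℕ) :=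
  Z.map fun p => (p.1, ((List.range (2 ^ (2 * m0 N))).map fun v =>
    look Z (mov N (2 ^ m0 N) I v p.1)).sum)

/-- the bases in a list of masks -/
def bss (N : ℕ) (I : List Bool → Bool) (L : List (List Bool)) : List (List Bool) :=
  L.filter fun y => I y && decide (cntT y = cntT (grd N I))

/-- the table of the numbers of walks which end in the bases -/
def tab (N s : ℕ) (I : List Bool → Bool) (L : List (List Bool)) : List (List Bool × ℕ) :=
  (dstep N I)^[2 * tt N s] ((bss N I L).map fun y => (y, if y = grd N I then 1 else 0))

/-- search: the first entry at which the sum of the weights `w` exceeds `U` -/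
def srch (w : ℕ → ℕ) (Z : List (List Bool × ℕ)) (U : ℕ) : Option (List Bool) :=
  (Z.foldl (fun (acc : ℕ × Option (List Bool)) p =>
    if acc.2.isSome = true then acc
    else if acc.1 < w p.2 then (acc.1, some p.1) else (acc.1 - w p.2, none)) (U, none)).2

/-- the slow choice of a basis, from the number `U < 2 ^ mm N s` -/
def pick (N s : ℕ) (I : List Bool → Bool) (L : List (List Bool)) (U : ℕ) : Option (List Bool) :=
  srch (fun c => 2 ^ (mm N s + s) / (bss N I L).length - (2 ^ s - 1) * c) (tab N s I L) U

/-- The phases: start and decision; walk (mask, number of further moves); list of masks under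
construction; list of all masks. -/
abbrev Tag : Type :=
  Bool ⊕ ((List Bool × List Unit) ⊕ ((List (List Bool) × List Unit) ⊕ List (List Bool)))

/-- a list of `k` units -/
abbrev un (k : ℕ) : List Unit := List.replicate k ()

variable {α β : Type}

/-- The step function: from the phase and the number given by the coins to the next phase and the
number of coins it needs, or to the output. -/
def next (nf : α → ℕ) (ind : α × List Bool → Bool) (out : α × List Bool → β)
    (q : ((α × List Unit) × Tag) × ℕ) : (((α × List Unit) × Tag) × List Unit) ⊕ β :=
  match q with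
  | (((a, s), Sum.inl false), _) => Sum.inl (((a, s), Sum.inl true), s)
  | (((a, s), Sum.inl true), v) =>
    if v = 0 then Sum.inl (((a, s), Sum.inr (Sum.inr (Sum.inl ([[]], un (nf a))))), [])
    else Sum.inl (((a, s), Sum.inr (Sum.inl (grd (nf a) (fun y => ind (a, y)),
      un (2 * tt (nf a) s.length - 1)))), un (2 * m0 (nf a)))
  | (((a, s), Sum.inr (Sum.inl (y, []))), v) =>
    Sum.inr (out (a, mov (nf a) (2 ^ m0 (nf a)) (fun y => ind (a, y)) v y))
  | (((a, s), Sum.inr (Sum.inl (y, _ :: r))), v) =>
    Sum.inl (((a, s), Sum.inr (Sum.inl (mov (nf a) (2 ^ m0 (nf a)) (fun y => ind (a, y)) v y, r))),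
      un (2 * m0 (nf a)))
  | (((a, s), Sum.inr (Sum.inr (Sum.inl (L, [])))), _) =>
    Sum.inl (((a, s), Sum.inr (Sum.inr (Sum.inr L))), un (mm (nf a) s.length))
  | (((a, s), Sum.inr (Sum.inr (Sum.inl (L, _ :: u)))), _) =>
    Sum.inl (((a, s), Sum.inr (Sum.inr (Sum.inl
      ((L.map fun y => false :: y) ++ (L.map fun y => true :: y), u)))), [])
  | (((a, s), Sum.inr (Sum.inr (Sum.inr L))), v) =>
    match pick (nf a) s.length (fun y => ind (a, y)) L v with
    | some y => Sum.inr (out (a, y))
    | none => Sum.inl (((a, s), Sum.inl false), [])

/-- Part ALGP: the step function is computable in polynomial time. -/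
def S_ALGP : Prop :=
  ∀ (α β : Type) (_ : TEnc α) (_ : TEnc β) (nf : α → ℕ) (ind : α × List Bool → Bool)
    (out : α × List Bool → β), UPoly nf → NPC.Poly ind → NPC.Poly out →
    NPC.Poly (next nf ind out)

end Pool.Agent.H73.ST
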