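import Pool.Agent.H73.ST.Exists
import Pool.Agent.H671R2.PolyAuto

/-!
# Machines of step functions which use several coins at once
-/

set_option autoImplicit false

namespace Pool.Agent.H73.ST

open Pool.Agent Pool.Agent.NPC Finset
open scoped ENNReal

variable {A Φ β : Type} [TEnc A] [TEnc Φ] [TEnc β]

/-- The one-coin step function: collect the coins (as the binary digits of a number), then apply
`next`. -/
def hstep (next : Φ × ℕ → (Φ × List Unit) ⊕ β) (p : Bool × (Φ × List Unit × ℕ)) :
    (Φ × List Unit × ℕ) ⊕ β :=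
  match p.2.2.1 with
  | [] =>
    match next (p.2.1, p.2.2.2) with
    | Sum.inl q => Sum.inl (q.1, q.2, 0)
    | Sum.inr y => Sum.inr y
  | _ :: u => Sum.inl (p.2.1, u, 2 * p.2.2.2 + (if p.1 = true then 1 else 0))

theorem poly_hstep {next : Φ × ℕ → (Φ × List Unit) ⊕ β} (h : NPC.Poly next) :
    NPC.Poly (hstep next) := by
  have h2 : NPC.Poly (fun q : (Bool × (Φ × List Unit × ℕ)) × Unit × List Unit =>
      (Sum.inl (q.1.2.1, q.2.2, 2 * q.1.2.2.2 + (if q.1.1 = true then 1 else 0)) :
        (Φ × List Unit × ℕ) ⊕ β)) := by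
    fun_prop
  have h1 : NPC.Poly (fun p : Bool × (Φ × List Unit × ℕ) =>
      Sum.elim (fun q => (Sum.inl (q.1, q.2, 0) : (Φ × List Unit × ℕ) ⊕ β)) (fun y => Sum.inr y)
        (next (p.2.1, p.2.2.2))) := by
    fun_prop
  exact (NPC.Poly.listCases (l := fun p : Bool × (Φ × List Unit × ℕ) => p.2.2.1)
    (g := fun p => Sum.elim (fun q => (Sum.inl (q.1, q.2, 0) : (Φ × List Unit × ℕ) ⊕ β))
      (fun y => Sum.inr y) (next (p.2.1, p.2.2.2)))
    (h := fun p _ t => (Sum.inl (p.2.1, t, 2 * p.2.2.2 + (if p.1 = true then 1 else 0)) :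
        (Φ × List Unit × ℕ) ⊕ β)) (by fun_prop) h1 h2).congr
      fun p => by
        obtain ⟨b, φ, u, v⟩ := p
        cases u with
        | nil =>
          simp only [hstep]
          cases next (φ, v) <;> rfl
        | cons _ u => rfl

/-- average over `2 ^ k` values -/
noncomputable def avg (k : ℕ) (f : ℕ → ℝ≥0∞) : ℝ≥0∞ := (2⁻¹) ^ k * ∑ i ∈ range (2 ^ k), f i

theorem avg_zero (f : ℕ → ℝ≥0∞) : avg 0 f = f 0 := by simp [avg]

theorem avg_mono {k : ℕ} {f g : ℕ → ℝ≥0∞} (h : ∀ i < 2 ^ k, f i ≤ g i) : avg k f ≤ avg k g := by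
  unfold avg
  gcongr with i hi
  exact h i (mem_range.mp hi)

theorem two_inv_pow (k : ℕ) : (2⁻¹ : ℝ≥0∞) ^ k * 2 ^ k = 1 := by
  rw [← mul_pow, ENNReal.inv_mul_cancel (by simp) (by simp), one_pow]

theorem avg_const (k : ℕ) (c : ℝ≥0∞) : avg k (fun _ => c) = c := by
  unfold avg
  rw [sum_const, card_range, nsmul_eq_mul, ← mul_assoc]
  push_cast
  rw [two_inv_pow, one_mul]

theorem avg_add (k : ℕ) (f g : ℕ → ℝ≥0∞) : avg k (fun i => f i + g i) = avg k f + avg k g := by
  unfold avg
  rw [sum_add_distrib, mul_add]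

theorem avg_succ (k : ℕ) (v : ℕ) (f : ℕ → ℝ≥0∞) :
    2⁻¹ * avg k (fun i => f (2 ^ k * (2 * v + 0) + i)) +
      2⁻¹ * avg k (fun i => f (2 ^ k * (2 * v + 1) + i)) =
      avg (k + 1) (fun i => f (2 ^ (k + 1) * v + i)) := by
  unfold avg
  have e : 2 ^ (k + 1) = 2 ^ k + 2 ^ k := by ring
  rw [e, sum_range_add]
  have e1 : ∀ i, f (2 ^ k * (2 * v + 0) + i) = f ((2 ^ k + 2 ^ k) * v + i) := by
    intro i; congr 1; ring
  have e2 : ∀ i, f (2 ^ k * (2 * v + 1) + i) = f ((2 ^ k + 2 ^ k) * v + (2 ^ k + i)) := by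
    intro i; congr 1; ring
  simp only [e1, e2]
  rw [pow_succ]
  ring

theorem avg_comb (k : ℕ) (f : ℕ → ℝ≥0∞) (c : ℝ≥0∞) (g : ℕ → ℝ≥0∞) (v : ℕ)
    (h : ∀ x, g x ≤ c + avg k (fun i => f (2 ^ k * x + i))) :
    2⁻¹ * g (2 * v + 0) + 2⁻¹ * g (2 * v + 1) ≤ c + avg (k + 1) (fun i => f (2 ^ (k + 1) * v + i)) := by
  rw [← avg_succ]
  calc _ ≤ 2⁻¹ * (c + avg k (fun i => f (2 ^ k * (2 * v + 0) + i))) +
        2⁻¹ * (c + avg k (fun i => f (2 ^ k * (2 * v + 1) + i))) := by
        gcongr
        · exact h _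
        · exact h _
    _ = (2⁻¹ * c + 2⁻¹ * c) + (2⁻¹ * avg k (fun i => f (2 ^ k * (2 * v + 0) + i)) +
        2⁻¹ * avg k (fun i => f (2 ^ k * (2 * v + 1) + i))) := by ring
    _ = _ := by rw [half_add_half]

open Classical in
/-- The machine of a step function which may use several coins. -/
theorem phase_machine (next : Φ × ℕ → (Φ × List Unit) ⊕ β) (hnext : NPC.Poly next) :
    ∃ Q : Polynomial ℕ, ∀ (ι : A → Φ), NPC.Poly ι →
    ∃ (M : PTM) (p : Polynomial ℕ) (P : β → Φ × ℕ → ℝ≥0∞) (E : ℕ → Φ × ℕ → ℝ≥0∞),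
      (∀ a y, M.prob (bits a) (bits y) = P y (ι a, 0)) ∧
      (∀ y s, P y s = Sum.elim (fun q => avg q.2.length (fun i => P y (q.1, i)))
        (fun y' => if y' = y then 1 else 0) (next s)) ∧
      (∀ y s, P y s ≤ 1) ∧
      (∀ a B, (∀ n, E n (ι a, 0) ≤ B) → M.expTime (bits a) ≤ (p.eval (sz a) : ℕ) + B) ∧
      (∀ n s, E n s ≤ (Q.eval (sz s) : ℕ) +
        Sum.elim (fun q => avg q.2.length (fun i => E n (q.1, i))) (fun _ => 0) (next s)) ∧
      (∀ n s, E n s ≤ n) := by
  obtain ⟨r, hr⟩ := hnext.sz_le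
  obtain ⟨Q0, h0⟩ := exists_machine (A := A) (hstep next) (poly_hstep hnext)
  refine ⟨Q0.comp (Polynomial.X + Polynomial.C 2) +
    r * Q0.comp (Polynomial.C 5 * r + Polynomial.C 3), ?_⟩
  intro ι hι
  obtain ⟨M, p, P, E, hM, hP, hP1, hT, hE, hEn⟩ := h0 (fun a => (ι a, ([] : List Unit), 0))
    (by fun_prop)
  refine ⟨M, p, fun y s => P y (s.1, [], s.2), fun n s => E n (s.1, [], s.2), ?_, ?_, ?_, ?_, ?_, ?_⟩
  · intro a y
    exact hM a y
  · -- probabilities
    have hg : ∀ (y : β) (φ : Φ) (u : List Unit) (v : ℕ),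
        P y (φ, u, v) = avg u.length (fun i => P y (φ, [], 2 ^ u.length * v + i)) := by
      intro y φ u
      induction u with
      | nil => intro v; rw [List.length_nil, avg_zero]; simp
      | cons a u ih =>
        intro v
        rw [hP, List.length_cons, ← avg_succ u.length v (fun i => P y (φ, [], i))]
        simp only [hstep, Bool.false_eq_true, if_false, if_true, Sum.elim_inl]
        rw [ih (2 * v + 0), ih (2 * v + 1)]
    intro y s
    obtain ⟨φ, v⟩ := s
    change P y (φ, [], v) = Sum.elim (fun q => avg q.2.length (fun i => P y (q.1, [], i)))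
      (fun y' => if y' = y then 1 else 0) (next (φ, v))
    rw [hP]
    simp only [hstep]
    rcases hx : next (φ, v) with q | y'
    · simp only [Sum.elim_inl]
      rw [half_add_half, hg]
      simp
    · simp only [Sum.elim_inr]
      rw [half_add_half]
  · intro y s
    exact hP1 y _
  · intro a B hB
    exact hT a B hB
  · -- expected time
    have hg : ∀ (n : ℕ) (φ : Φ) (W j : ℕ) (u : List Unit) (v : ℕ), v < 2 ^ j →
        sz φ + sz u + 4 * (u.length + j) + 3 ≤ W →
        E n (φ, u, v) ≤ ((u.length * Q0.eval W : ℕ) : ℝ≥0∞) +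
          avg u.length (fun i => E n (φ, [], 2 ^ u.length * v + i)) := by
      intro n φ W j u
      induction u generalizing j with
      | nil =>
        intro v _ _
        rw [List.length_nil, avg_zero]
        simp
      | cons a u ih =>
        intro v hv hW
        have hv0 : 2 * v + 0 < 2 ^ (j + 1) := by rw [pow_succ]; omega
        have hv1 : 2 * v + 1 < 2 ^ (j + 1) := by rw [pow_succ]; omega
        simp only [sz_list_cons, List.length_cons] at hW
        have i0 := ih (j + 1) (2 * v + 0) hv0 (by omega)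
        have i1 := ih (j + 1) (2 * v + 1) hv1 (by omega)
        have hs : sz ((φ, a :: u, v) : Φ × List Unit × ℕ) ≤ W := by
          have h1 := sz_nat_le v
          have h2 : v.size ≤ j := Nat.size_le.mpr hv
          simp only [sz_pair, sz_list_cons]
          omega
        have hc : Q0.eval (sz ((φ, a :: u, v) : Φ × List Unit × ℕ)) ≤ Q0.eval W := eval_mono _ hs
        have h2 := hE n (φ, a :: u, v)
        simp only [hstep, Bool.false_eq_true, if_false, if_true, Sum.elim_inl] at h2
        rw [List.length_cons, ← avg_succ u.length v (fun i => E n (φ, [], i))]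
        refine h2.trans ?_
        calc ((Q0.eval (sz ((φ, a :: u, v) : Φ × List Unit × ℕ)) : ℕ) : ℝ≥0∞) +
              (2⁻¹ * E n (φ, u, 2 * v + 0) + 2⁻¹ * E n (φ, u, 2 * v + 1))
            ≤ (Q0.eval W : ℕ) + (2⁻¹ * (((u.length * Q0.eval W : ℕ) : ℝ≥0∞) +
                avg u.length (fun i => E n (φ, [], 2 ^ u.length * (2 * v + 0) + i))) +
              2⁻¹ * (((u.length * Q0.eval W : ℕ) : ℝ≥0∞) +
                avg u.length (fun i => E n (φ, [], 2 ^ u.length * (2 * v + 1) + i)))) := by
              gcongr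
          _ = (Q0.eval W : ℕ) + ((2⁻¹ * ((u.length * Q0.eval W : ℕ) : ℝ≥0∞) +
                2⁻¹ * ((u.length * Q0.eval W : ℕ) : ℝ≥0∞)) +
              (2⁻¹ * avg u.length (fun i => E n (φ, [], 2 ^ u.length * (2 * v + 0) + i)) +
                2⁻¹ * avg u.length (fun i => E n (φ, [], 2 ^ u.length * (2 * v + 1) + i)))) := by
              ring
          _ = _ := by
              rw [half_add_half, ← add_assoc]
              congr 1
              push_cast
              ring
    intro n s
    obtain ⟨φ, v⟩ := s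
    have h2 := hE n (φ, [], v)
    simp only [hstep] at h2
    have hs : sz ((φ, [], v) : Φ × List Unit × ℕ) = sz (φ, v) + 2 := by
      simp only [sz_pair, sz_list_nil]
      ring
    have hc : Q0.eval (sz ((φ, [], v) : Φ × List Unit × ℕ)) =
        (Q0.comp (Polynomial.X + Polynomial.C 2)).eval (sz (φ, v)) := by
      rw [hs]
      simp
    rw [hc] at h2
    rcases hx : next (φ, v) with q | y'
    · rw [hx] at h2
      simp only [Sum.elim_inl] at h2 ⊢
      rw [half_add_half] at h2
      have hsz : sz q.1 + sz q.2 + 3 ≤ r.eval (sz (φ, v)) := by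
        have := hr (φ, v)
        rw [hx, sz_inl] at this
        have e : sz q = sz q.1 + sz q.2 + 1 := by
          obtain ⟨q1, q2⟩ := q
          simp
        omega
      have hlen := length_lt_sz q.2
      have h3 := hg n q.1 ((Polynomial.C 5 * r + Polynomial.C 3).eval (sz (φ, v))) 0 q.2 0
        (by simp) (by
          simp only [Polynomial.eval_add, Polynomial.eval_mul, Polynomial.eval_C]
          omega)
      simp only [mul_zero, zero_add] at h3
      refine h2.trans ?_
      refine (add_le_add le_rfl h3).trans ?_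
      rw [← add_assoc]
      refine add_le_add ?_ le_rfl
      have h4 : (Q0.comp (Polynomial.X + Polynomial.C 2)).eval (sz (φ, v)) +
          q.2.length * Q0.eval ((Polynomial.C 5 * r + Polynomial.C 3).eval (sz (φ, v))) ≤
          (Q0.comp (Polynomial.X + Polynomial.C 2) +
            r * Q0.comp (Polynomial.C 5 * r + Polynomial.C 3)).eval (sz (φ, v)) := by
        have e4 : (Q0.comp (Polynomial.X + Polynomial.C 2) +
            r * Q0.comp (Polynomial.C 5 * r + Polynomial.C 3)).eval (sz (φ, v)) =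
            (Q0.comp (Polynomial.X + Polynomial.C 2)).eval (sz (φ, v)) +
            (r * Q0.comp (Polynomial.C 5 * r + Polynomial.C 3)).eval (sz (φ, v)) :=
          Polynomial.eval_add
        have e5 : (r * Q0.comp (Polynomial.C 5 * r + Polynomial.C 3)).eval (sz (φ, v)) =
            r.eval (sz (φ, v)) *
              Q0.eval ((Polynomial.C 5 * r + Polynomial.C 3).eval (sz (φ, v))) := by
          rw [Polynomial.eval_mul, Polynomial.eval_comp]
        rw [e4, e5]
        refine Nat.add_le_add_left (Nat.mul_le_mul_right _ ?_) _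
        omega
      exact_mod_cast h4
    · rw [hx] at h2
      simp only [Sum.elim_inr] at h2 ⊢
      refine h2.trans ?_
      simp only [mul_zero, add_zero]
      have h4 : (Q0.comp (Polynomial.X + Polynomial.C 2)).eval (sz (φ, v)) ≤
          (Q0.comp (Polynomial.X + Polynomial.C 2) +
            r * Q0.comp (Polynomial.C 5 * r + Polynomial.C 3)).eval (sz (φ, v)) := by
        rw [Polynomial.eval_add]
        exact Nat.le_add_right _ _
      exact_mod_cast h4
  · intro n s
    exact hEn n _

end Pool.Agent.H73.ST
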