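import Pool.Agent.H73.ST.Srch
import Pool.Agent.H73.ST.Gather

/-!
# The output distribution of the algorithm
-/

set_option autoImplicit false

namespace Pool.Agent.H73.ST

open Pool.Agent Pool.Agent.NPC Finset
open scoped ENNReal

variable {α β : Type} {nf : α → ℕ} {ind : α × List Bool → Bool} {out : α × List Bool → β}

theorem length_un (k : ℕ) : (un k).length = k := by simp

section

variable {a : α} {s : ℕ} {y0 : List Bool} {P : ((α × List Unit) × Tag) × ℕ → ℝ≥0∞}

open Classical in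
/-- the walk -/
theorem walk_eq
    (hy0 : y0 ∈ Bs (nf a) (fun y => ind (a, y)))
    (hinj : ∀ y ∈ Bs (nf a) (fun y => ind (a, y)), out (a, y) = out (a, y0) → y = y0)
    (hP : ∀ s, P s = Sum.elim (fun q => avg q.2.length (fun i => P (q.1, i)))
        (fun y' => if y' = out (a, y0) then 1 else 0) (next nf ind out s)) (r : ℕ) :
    ∀ y ∈ Bs (nf a) (fun y => ind (a, y)),
      avg (2 * m0 (nf a)) (fun v => P (((a, un s), Sum.inr (Sum.inl (y, un r))), v)) =
        (2⁻¹) ^ (2 * m0 (nf a) * (r + 1)) *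
          (CC (nf a) (fun y => ind (a, y)) (r + 1) y y0 : ℕ) := by
  induction r with
  | zero =>
    intro y hy
    rw [CC_first 0 hy hy0]
    unfold avg
    rw [zero_add, mul_one]
    congr 1
    rw [Nat.cast_sum]
    refine Finset.sum_congr rfl fun v _ => ?_
    change P (((a, un s), Sum.inr (Sum.inl (y, un 0))), v) = _
    rw [hP]
    change (if out (a, mov (nf a) (2 ^ m0 (nf a)) (fun y => ind (a, y)) v y) = out (a, y0)
      then (1 : ℝ≥0∞) else 0) =
      (((if y0 = mov (nf a) (2 ^ m0 (nf a)) (fun y => ind (a, y)) v y then 1 else 0 : ℕ)) : ℝ≥0∞)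
    by_cases h1 : mov (nf a) (2 ^ m0 (nf a)) (fun y => ind (a, y)) v y = y0
    · rw [if_pos (by rw [h1]), if_pos h1.symm, Nat.cast_one]
    · rw [if_neg (fun h2 => h1 (hinj _ (mov_mem _ v hy) h2)), if_neg (fun h2 => h1 h2.symm),
        Nat.cast_zero]
  | succ r ih =>
    intro y hy
    rw [CC_first (r + 1) hy hy0]
    have h1 : ∀ v, P (((a, un s), Sum.inr (Sum.inl (y, un (r + 1)))), v) =
        (2⁻¹) ^ (2 * m0 (nf a) * (r + 1)) *
          (CC (nf a) (fun y => ind (a, y)) (r + 1)
            (mov (nf a) (2 ^ m0 (nf a)) (fun y => ind (a, y)) v y) y0 : ℕ) := by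
      intro v
      rw [hP]
      change avg (un (2 * m0 (nf a))).length (fun i => P (((a, un s), Sum.inr (Sum.inl
        (mov (nf a) (2 ^ m0 (nf a)) (fun y => ind (a, y)) v y, un r))), i)) = _
      rw [length_un]
      exact ih _ (mov_mem _ v hy)
    simp only [h1]
    unfold avg
    rw [← Finset.mul_sum, ← mul_assoc, ← pow_add, Nat.cast_sum]
    congr 2
    ring

open Classical in
/-- the construction of the list of all masks -/
theorem pad_eq {o : β}
    (hP : ∀ s, P s = Sum.elim (fun q => avg q.2.length (fun i => P (q.1, i)))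
        (fun y' => if y' = o then 1 else 0) (next nf ind out s)) (u : ℕ) :
    ∀ k v, k + u = nf a →
      P (((a, un s), Sum.inr (Sum.inr (Sum.inl (allM k, un u)))), v) =
        avg (mm (nf a) s) (fun i => P (((a, un s), Sum.inr (Sum.inr (Sum.inr (allM (nf a))))), i)) := by
  induction u with
  | zero =>
    intro k v hk
    rw [add_zero] at hk
    rw [hP, hk]
    change avg (un (mm (nf a) (un s).length)).length (fun i => P (((a, un s),
      Sum.inr (Sum.inr (Sum.inr (allM (nf a))))), i)) = _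
    rw [length_un, length_un]
  | succ u ih =>
    intro k v hk
    rw [hP]
    change avg 0 (fun i => P (((a, un s), Sum.inr (Sum.inr (Sum.inl (allM (k + 1), un u)))), i)) = _
    rw [avg_zero]
    exact ih (k + 1) 0 (by omega)

open Classical in
theorem pick_eq (hp : S_POIN) (h : IndSys (nf a) (fun y => ind (a, y)))
    (hy0 : y0 ∈ Bs (nf a) (fun y => ind (a, y)))
    (hinj : ∀ y ∈ Bs (nf a) (fun y => ind (a, y)), out (a, y) = out (a, y0) → y = y0)
    (hP : ∀ s, P s = Sum.elim (fun q => avg q.2.length (fun i => P (q.1, i)))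
        (fun y' => if y' = out (a, y0) then 1 else 0) (next nf ind out s)) :
    avg (mm (nf a) s) (fun i => P (((a, un s), Sum.inr (Sum.inr (Sum.inr (allM (nf a))))), i)) =
      (2⁻¹) ^ (mm (nf a) s) * ((wt (nf a) s (fun y => ind (a, y)) y0 : ℕ) +
        (2 ^ mm (nf a) s - ∑ y ∈ Bs (nf a) (fun y => ind (a, y)),
          wt (nf a) s (fun y => ind (a, y)) y : ℕ) * P (((a, un s), Sum.inl false), 0)) := by
  set F : Option (List Bool) → ℝ≥0∞ := fun w =>
    w.elim (P (((a, un s), Sum.inl false), 0))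
      (fun y => if out (a, y) = out (a, y0) then 1 else 0) with hF
  have h1 : ∀ i, P (((a, un s), Sum.inr (Sum.inr (Sum.inr (allM (nf a))))), i) =
      F (pick (nf a) s (fun y => ind (a, y)) (allM (nf a)) i) := by
    intro i
    rw [hP]
    have e : next nf ind out (((a, un s), Sum.inr (Sum.inr (Sum.inr (allM (nf a))))), i) =
        match pick (nf a) (un s).length (fun y => ind (a, y)) (allM (nf a)) i with
        | some y => Sum.inr (out (a, y))
        | none => Sum.inl (((a, un s), Sum.inl false), []) := rfl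
    rw [e, length_un]
    rcases pick (nf a) s (fun y => ind (a, y)) (allM (nf a)) i with _ | y
    · change avg 0 (fun i => P (((a, un s), Sum.inl false), i)) = _
      rw [avg_zero]
      rfl
    · rfl
  simp only [h1]
  unfold avg
  rw [sum_pick hp h]
  congr 1
  have h2 : ∑ y ∈ Bs (nf a) (fun y => ind (a, y)),
      wt (nf a) s (fun y => ind (a, y)) y • F (some y) =
      (wt (nf a) s (fun y => ind (a, y)) y0 : ℕ) := by
    rw [Finset.sum_eq_single_of_mem y0 hy0]
    · change wt (nf a) s (fun y => ind (a, y)) y0 •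
        (if out (a, y0) = out (a, y0) then (1 : ℝ≥0∞) else 0) = _
      rw [if_pos rfl, nsmul_eq_mul, mul_one]
    · intro y hy hne
      change wt (nf a) s (fun y => ind (a, y)) y •
        (if out (a, y) = out (a, y0) then (1 : ℝ≥0∞) else 0) = _
      rw [if_neg (fun h2 => hne (hinj y hy h2)), smul_zero]
  rw [h2, nsmul_eq_mul]
  rfl

end

open Classical in
/-- The output distribution is uniform. -/
theorem prob_eq (hp : S_POIN) {a : α} {s : ℕ} (hs : 1 ≤ s)
    (h : IndSys (nf a) (fun y => ind (a, y))) {y0 : List Bool}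
    (hy0 : y0 ∈ Bs (nf a) (fun y => ind (a, y)))
    (hinj : ∀ y ∈ Bs (nf a) (fun y => ind (a, y)), out (a, y) = out (a, y0) → y = y0)
    {P : ((α × List Unit) × Tag) × ℕ → ℝ≥0∞}
    (hP : ∀ s, P s = Sum.elim (fun q => avg q.2.length (fun i => P (q.1, i)))
        (fun y' => if y' = out (a, y0) then 1 else 0) (next nf ind out s))
    (hP1 : ∀ s, P s ≤ 1) :
    P (((a, un s), Sum.inl false), 0) = 1 / ((Bs (nf a) (fun y => ind (a, y))).card : ℕ) := by
  set N := nf a with hN
  set I : List Bool → Bool := fun y => ind (a, y) with hI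
  set x := P (((a, un s), Sum.inl false), 0) with hx
  set m := mm N s with hm
  set W := ∑ y ∈ Bs N I, wt N s I y with hW
  set b0 := 2 ^ (m + s) / (Bs N I).card with hb0
  have htt : 1 ≤ tt N s := by
    unfold tt
    exact Nat.mul_pos (by positivity) (by omega)
  -- the decision
  have h0 : P (((a, un s), Sum.inl true), 0) = (2⁻¹) ^ m * ((wt N s I y0 : ℕ) +
      (2 ^ m - W : ℕ) * x) := by
    rw [hP]
    change avg 0 (fun i => P (((a, un s), Sum.inr (Sum.inr (Sum.inl (allM 0, un N)))), i)) = _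
    rw [avg_zero, pad_eq hP N 0 0 (by omega), pick_eq hp h hy0 hinj hP]
  have h1 : ∀ i, i ≠ 0 → P (((a, un s), Sum.inl true), i) =
      (2⁻¹) ^ m * (CC N I (2 * tt N s) (grd N I) y0 : ℕ) := by
    intro i hi
    rw [hP]
    have e : next nf ind out (((a, un s), Sum.inl true), i) =
        if i = 0 then Sum.inl (((a, un s), Sum.inr (Sum.inr (Sum.inl ([[]], un N)))), [])
        else Sum.inl (((a, un s), Sum.inr (Sum.inl (grd N I,
          un (2 * tt N (un s).length - 1)))), un (2 * m0 N)) := rfl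
    rw [e, if_neg hi]
    change avg (un (2 * m0 N)).length (fun i => P (((a, un s), Sum.inr (Sum.inl (grd N I,
          un (2 * tt N (un s).length - 1)))), i)) = _
    rw [length_un, length_un, walk_eq hy0 hinj hP _ _ (grd_mem h)]
    have e2 : 2 * tt N s - 1 + 1 = 2 * tt N s := by omega
    rw [e2]
    rfl
  have h2 : x = (2⁻¹) ^ s * ∑ i ∈ range (2 ^ s), P (((a, un s), Sum.inl true), i) := by
    rw [hx, hP]
    change avg (un s).length (fun i => P (((a, un s), Sum.inl true), i)) = _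
    rw [length_un]
    rfl
  obtain ⟨c, hc⟩ : ∃ c, 2 ^ s = c + 1 := ⟨2 ^ s - 1, by
    have : 1 ≤ 2 ^ s := Nat.one_le_two_pow
    omega⟩
  have h3 : ∑ i ∈ range (2 ^ s), P (((a, un s), Sum.inl true), i) =
      (2⁻¹) ^ m * ((b0 : ℕ) + (2 ^ m - W : ℕ) * x) := by
    rw [hc, Finset.sum_range_succ', h0, Finset.sum_congr rfl fun i _ => h1 (i + 1) (by omega)]
    rw [Finset.sum_const, card_range, nsmul_eq_mul]
    have e : b0 = wt N s I y0 + c * CC N I (2 * tt N s) (grd N I) y0 := by
      have := weight_ok hp h (grd_mem h) hy0 s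
      unfold wt
      have e1 : 2 ^ s - 1 = c := by omega
      rw [e1] at this ⊢
      exact (Nat.sub_add_cancel this).symm
    rw [e]
    push_cast
    ring
  have hsum := sum_wt hp h s
  have hle := sum_wt_le hp h s
  have e1 : 2 ^ s - 1 = c := by omega
  rw [e1] at hsum
  -- the equation
  have h4 : x * ((2 ^ s * 2 ^ m : ℕ) : ℝ≥0∞) = (b0 : ℕ) + (2 ^ m - W : ℕ) * x := by
    have h5 : x = (2⁻¹) ^ s * ((2⁻¹) ^ m * ((b0 : ℕ) + (2 ^ m - W : ℕ) * x)) := by
      rw [← h3]; exact h2
    calc x * ((2 ^ s * 2 ^ m : ℕ) : ℝ≥0∞)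
        = ((2⁻¹) ^ s * ((2⁻¹) ^ m * ((b0 : ℕ) + (2 ^ m - W : ℕ) * x))) *
          ((2 ^ s * 2 ^ m : ℕ) : ℝ≥0∞) := by rw [← h5]
      _ = ((2⁻¹) ^ s * 2 ^ s) * ((2⁻¹) ^ m * 2 ^ m) * ((b0 : ℕ) + (2 ^ m - W : ℕ) * x) := by
          push_cast
          ring
      _ = _ := by rw [two_inv_pow, two_inv_pow, one_mul, one_mul]
  have h6 : 2 ^ s * 2 ^ m = (Bs N I).card * b0 + (2 ^ m - W) := by
    rw [← hsum, hc]
    have : W + (2 ^ m - W) = 2 ^ m := Nat.add_sub_cancel' hle
    calc (c + 1) * 2 ^ m = c * 2 ^ m + 2 ^ m := by ring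
      _ = c * 2 ^ m + (W + (2 ^ m - W)) := by rw [this]
      _ = _ := by ring
  rw [h6] at h4
  have hxtop : x ≠ ⊤ := ne_top_of_le_ne_top (by simp) (hP1 _)
  have h7 : x * (((Bs N I).card : ℕ) : ℝ≥0∞) * (b0 : ℕ) = 1 * (b0 : ℕ) := by
    have h8 : x * (((Bs N I).card : ℕ) : ℝ≥0∞) * (b0 : ℕ) + (2 ^ m - W : ℕ) * x =
        1 * (b0 : ℕ) + (2 ^ m - W : ℕ) * x := by
      rw [one_mul, ← h4]
      push_cast
      ring
    exact (ENNReal.add_left_inj (ENNReal.mul_ne_top (by simp) hxtop)).1 h8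
  have hb : b0 ≠ 0 := by
    intro hb
    rw [← hb0, hb, mul_zero] at hsum
    have : 1 ≤ c := by
      have : 2 ^ 1 ≤ 2 ^ s := Nat.pow_le_pow_right (by norm_num) hs
      omega
    have : 0 < c * 2 ^ mm N s := Nat.mul_pos (by omega) (by positivity)
    omega
  have h9 : x * (((Bs N I).card : ℕ) : ℝ≥0∞) = 1 :=
    (ENNReal.mul_left_inj (by exact_mod_cast hb) (by simp)).1 h7
  exact ENNReal.eq_div_iff (by exact_mod_cast (Bs_pos h).ne') (by simp) |>.2 (by rw [mul_comm]; exact h9)

end Pool.Agent.H73.ST
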