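import Pool.Agent.H73.ST.Gap
import Pool.Agent.Helper80ST.Mix

/-!
# Counting the walks between bases
-/

set_option autoImplicit false

namespace Pool.Agent.H73.ST

open Pool.Agent Pool.Agent.NPC Finset

/-- the number of walks with `k` moves from `x` to `y` -/
def CC (N : ℕ) (I : List Bool → Bool) : ℕ → List Bool → List Bool → ℕ
  | 0, x, y => if y = x then 1 else 0
  | k + 1, x, y => ∑ v ∈ range (2 ^ (2 * m0 N)), CC N I k x (mov N (2 ^ m0 N) I v y)

variable {N : ℕ} {I : List Bool → Bool}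

theorem CC_first (k : ℕ) : ∀ {x y : List Bool}, x ∈ Bs N I → y ∈ Bs N I →
    CC N I (k + 1) x y = ∑ v ∈ range (2 ^ (2 * m0 N)), CC N I k (mov N (2 ^ m0 N) I v x) y := by
  induction k with
  | zero =>
    intro x y hx hy
    refine Finset.sum_congr rfl fun v _ => ?_
    change (if mov N (2 ^ m0 N) I v y = x then 1 else 0) =
      (if y = mov N (2 ^ m0 N) I v x then 1 else 0)
    congr 1
    apply propext
    constructor
    · rintro rfl
      exact (mov_mov _ v hy).symm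
    · rintro rfl
      exact mov_mov _ v hx
  | succ k ih =>
    intro x y hx hy
    change ∑ v ∈ range (2 ^ (2 * m0 N)), CC N I (k + 1) x (mov N (2 ^ m0 N) I v y) = _
    rw [Finset.sum_congr rfl fun v _ => ih hx (mov_mem _ v hy), Finset.sum_comm]
    rfl

theorem CC_symm (k : ℕ) : ∀ {x y : List Bool}, x ∈ Bs N I → y ∈ Bs N I →
    CC N I k x y = CC N I k y x := by
  induction k with
  | zero =>
    intro x y _ _
    change (if y = x then 1 else 0) = (if x = y then 1 else 0)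
    simp only [eq_comm]
  | succ k ih =>
    intro x y hx hy
    rw [CC_first k hx hy]
    change _ = ∑ v ∈ range (2 ^ (2 * m0 N)), CC N I k y (mov N (2 ^ m0 N) I v x)
    exact Finset.sum_congr rfl fun v _ => ih (mov_mem _ v hx) hy

theorem sum_mov {R : Type} [AddCommMonoid R] (v : ℕ) (f : List Bool → R) :
    ∑ y ∈ Bs N I, f (mov N (2 ^ m0 N) I v y) = ∑ y ∈ Bs N I, f y := by
  refine Finset.sum_nbij' (mov N (2 ^ m0 N) I v) (mov N (2 ^ m0 N) I v) ?_ ?_ ?_ ?_ ?_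
  · intro y hy; exact mov_mem _ v hy
  · intro y hy; exact mov_mem _ v hy
  · intro y hy; exact mov_mov _ v hy
  · intro y hy; exact mov_mov _ v hy
  · intro y _; rfl

theorem CC_total (k : ℕ) {x : List Bool} (hx : x ∈ Bs N I) :
    ∑ y ∈ Bs N I, CC N I k x y = (2 ^ (2 * m0 N)) ^ k := by
  induction k with
  | zero =>
    change ∑ y ∈ Bs N I, (if y = x then 1 else 0) = _
    rw [Finset.sum_ite_eq' (Bs N I) x (fun _ => 1), if_pos hx, pow_zero]
  | succ k ih =>
    change ∑ y ∈ Bs N I, ∑ v ∈ range (2 ^ (2 * m0 N)), CC N I k x (mov N (2 ^ m0 N) I v y) = _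
    rw [Finset.sum_comm]
    rw [Finset.sum_congr rfl fun v _ => (sum_mov v (fun y => CC N I k x y)).trans ih]
    rw [Finset.sum_const, card_range, smul_eq_mul, pow_succ, mul_comm]

theorem mix_bound (hp : S_POIN) (h : IndSys N I) {x y : List Bool} (hx : x ∈ Bs N I)
    (hy : y ∈ Bs N I) (t : ℕ) :
    (CC N I (2 * t) x y : ℝ) / ((2 ^ (2 * m0 N) : ℕ) : ℝ) ^ (2 * t) ≤
      1 / ((Bs N I).card : ℝ) + (1 - 2 / ((2 ^ (2 * m0 N) : ℕ) : ℝ)) ^ t := by
  refine Pool.Agent.Helper80ST.t_MIX (List Bool) inferInstance (Bs N I) (2 ^ (2 * m0 N))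
    (fun v => mov N (2 ^ m0 N) I v) (two_le_b N) ?_ ?_ ?_ x hx (fun k => CC N I k x) ?_ ?_ t y hy
  · intro v _ y hy
    exact ⟨mov_mem _ v hy, mov_mov _ v hy⟩
  · refine ⟨(range N ×ˢ range N).image (fun p => p.1 * 2 ^ m0 N + p.2), ?_, ?_⟩
    · have h1 : ((range N ×ˢ range N).image (fun p => p.1 * 2 ^ m0 N + p.2)).card ≤ N * N := by
        refine Finset.card_image_le.trans ?_
        rw [Finset.card_product, card_range]
      have h2 := two_N_le_B N
      rw [b_eq]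
      calc 2 * _ ≤ 2 * (N * N) := Nat.mul_le_mul_left _ h1
        _ ≤ (2 * N) * (2 * N) := by nlinarith
        _ ≤ _ := Nat.mul_le_mul h2 h2
    · intro v _ hv y _
      change mov N (2 ^ m0 N) I v y = y
      unfold mov
      rw [if_neg]
      rintro ⟨h1, h2, _⟩
      apply hv
      rw [Finset.mem_image]
      refine ⟨(v / 2 ^ m0 N, v % 2 ^ m0 N), ?_, ?_⟩
      · rw [Finset.mem_product, mem_range, mem_range]
        exact ⟨h1, h2⟩
      · change v / 2 ^ m0 N * 2 ^ m0 N + v % 2 ^ m0 N = v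
        exact Nat.div_add_mod' v _
  · intro f hf
    exact gap hp h f hf
  · intro y _
    rfl
  · intro k y _
    rfl

theorem two_pow_mm (N s : ℕ) : 2 ^ mm N s = (2 ^ (2 * m0 N)) ^ (2 * tt N s) := by
  unfold mm
  rw [pow_mul]

theorem small_pow (N s : ℕ) :
    (1 - 2 / ((2 ^ (2 * m0 N) : ℕ) : ℝ)) ^ tt N s ≤ (1 / 2 : ℝ) ^ (N + s) := by
  unfold tt
  have hb := two_le_b N
  set b : ℕ := 2 ^ (2 * m0 N) with hbdef
  have hb' : (2 : ℝ) ≤ (b : ℝ) := by exact_mod_cast hb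
  rw [pow_mul]
  have h0 : 0 ≤ 1 - 2 / (b : ℝ) := by
    have : 2 / (b : ℝ) ≤ 1 := by rw [div_le_one (by linarith)]; exact hb'
    linarith
  refine pow_le_pow_left₀ (pow_nonneg h0 _) ?_ _
  have h1 := Real.one_sub_div_pow_le_exp_neg (n := b) (t := 2) hb'
  refine h1.trans ?_
  rw [Real.exp_neg]
  have h2 : (2 : ℝ) + 1 ≤ Real.exp 2 := Real.add_one_le_exp 2
  rw [one_div]
  exact inv_anti₀ (by norm_num) (by linarith)

theorem Bs_pos (h : IndSys N I) : 0 < (Bs N I).card := Finset.card_pos.2 ⟨_, grd_mem h⟩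

/-- the main inequality -/
theorem weight_ok (hp : S_POIN) (h : IndSys N I) {x y : List Bool} (hx : x ∈ Bs N I)
    (hy : y ∈ Bs N I) (s : ℕ) :
    (2 ^ s - 1) * CC N I (2 * tt N s) x y ≤ 2 ^ (mm N s + s) / (Bs N I).card := by
  have hM := Bs_pos h
  rw [Nat.le_div_iff_mul_le hM]
  have h1 := mix_bound hp h hx hy (tt N s)
  have h2 := h1.trans (add_le_add_right (small_pow N s) _)
  have hM' : (0 : ℝ) < ((Bs N I).card : ℝ) := by exact_mod_cast hM
  have hb : (0 : ℝ) < ((2 ^ (2 * m0 N) : ℕ) : ℝ) ^ (2 * tt N s) := by positivity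
  rw [div_le_iff₀ hb] at h2
  have hMN : ((Bs N I).card : ℝ) ≤ 2 ^ N := by exact_mod_cast card_Bs_le
  have e1 : ((2 ^ (2 * m0 N) : ℕ) : ℝ) ^ (2 * tt N s) = 2 ^ mm N s := by
    have := two_pow_mm N s
    exact_mod_cast this.symm
  rw [e1] at h2
  have h3 : (CC N I (2 * tt N s) x y : ℝ) * ((Bs N I).card : ℝ) ≤ (1 + (1 / 2) ^ s) * 2 ^ mm N s := by
    calc (CC N I (2 * tt N s) x y : ℝ) * ((Bs N I).card : ℝ)
        ≤ ((1 / ((Bs N I).card : ℝ) + (1 / 2) ^ (N + s)) * 2 ^ mm N s) * ((Bs N I).card : ℝ) :=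
          mul_le_mul_of_nonneg_right h2 hM'.le
      _ = (1 + (1 / 2) ^ s * ((1 / 2) ^ N * ((Bs N I).card : ℝ))) * 2 ^ mm N s := by
          rw [pow_add]
          field_simp
      _ ≤ (1 + (1 / 2) ^ s * ((1 / 2) ^ N * 2 ^ N)) * 2 ^ mm N s := by gcongr
      _ = _ := by
          rw [← mul_pow]
          norm_num
  have h4 : (((2 ^ s - 1) * CC N I (2 * tt N s) x y * (Bs N I).card : ℕ) : ℝ) ≤
      ((2 ^ (mm N s + s) : ℕ) : ℝ) := by
    have e2 : ((2 ^ s - 1 : ℕ) : ℝ) = 2 ^ s - 1 := by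
      rw [Nat.cast_sub (Nat.one_le_two_pow)]
      simp
    push_cast [e2]
    have h5 : (0 : ℝ) ≤ 2 ^ s - 1 := by
      have : (1 : ℝ) ≤ 2 ^ s := one_le_pow₀ (by norm_num)
      linarith
    calc ((2 : ℝ) ^ s - 1) * (CC N I (2 * tt N s) x y : ℝ) * ((Bs N I).card : ℝ)
        = (2 ^ s - 1) * ((CC N I (2 * tt N s) x y : ℝ) * ((Bs N I).card : ℝ)) := by ring
      _ ≤ (2 ^ s - 1) * ((1 + (1 / 2) ^ s) * 2 ^ mm N s) := mul_le_mul_of_nonneg_left h3 h5
      _ = (2 ^ s - 1) * (1 + (1 / 2) ^ s) * 2 ^ mm N s := by ring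
      _ ≤ 2 ^ s * 2 ^ mm N s := by
          gcongr
          have h6 : (2 : ℝ) ^ s * (1 / 2) ^ s = 1 := by rw [← mul_pow]; norm_num
          have h7 : (0 : ℝ) ≤ (1 / 2) ^ s := by positivity
          nlinarith
      _ = 2 ^ (mm N s + s) := by rw [pow_add]; ring
  exact_mod_cast h4

end Pool.Agent.H73.ST
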