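import Pool.Agent.H73.ST.PTM
import Pool.Agent.NPC.Defs

/-!
# Simplicial complexes, boundary maps and spanning trees
-/

set_option autoImplicit false

namespace Pool.Agent.H73.ST

/-- `F` is the list of all nonempty faces of a finite simplicial complex of dimension at least one:
each face is the increasing list of its vertices, which are natural numbers smaller than the number
of faces, no face is listed twice, every nonempty subset of a face is a face, and some face has at
least two vertices. -/
structure IsComplex (F : List (List ℕ)) : Prop where
  nodup : F.Nodup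
  sorted : ∀ σ ∈ F, σ ≠ [] ∧ σ.Pairwise (· < ·)
  small : ∀ σ ∈ F, ∀ v ∈ σ, v < F.length
  down : ∀ σ ∈ F, ∀ τ : List ℕ, τ.Sublist σ → τ ≠ [] → τ ∈ F
  dim_pos : ∃ σ ∈ F, 2 ≤ σ.length

/-- The largest number of vertices of a face (the dimension plus one). -/
def maxLen (F : List (List ℕ)) : ℕ := (F.map List.length).foldr max 0

/-- The faces of top dimension `d`, in the order of the list. -/
def tp (F : List (List ℕ)) : List (List ℕ) := F.filter fun σ => decide (σ.length = maxLen F)

/-- The boundary of the face `σ = {v_0 < ... < v_d}`: the face `σ \ {v_i}` has the coefficient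
`(-1) ^ i`, all other faces have the coefficient `0`. -/
def bd (σ : List ℕ) : List ℕ → ℚ := fun τ =>
  (σ.zipIdx.map fun p => if (σ.filter fun w => decide (w ≠ p.1)) = τ then (-1 : ℚ) ^ p.2 else 0).sum

/-- `S` is the list of the top-dimensional faces (in the order of `F`) of a spanning tree of the
complex: their boundaries form a basis of the space spanned by the boundaries of all
top-dimensional faces. -/
def IsTree (F S : List (List ℕ)) : Prop :=
  S.Sublist (tp F) ∧ LinearIndependent ℚ (fun i : Fin S.length => bd (S.get i)) ∧
    ∀ σ ∈ tp F, bd σ ∈ Submodule.span ℚ (bd '' {τ | τ ∈ S})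

end Pool.Agent.H73.ST
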