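import Pool.Agent.H73.ST.Mach

/-!
# The probabilistic machine of a polynomial-time step function: probabilities and expected time
-/

set_option autoImplicit false

namespace Pool.Agent.H73.ST

open Turing Pool.Agent.NPC
open scoped ENNReal
open Function (update)

section gen

variable {C : Type} {st : Bool → C → Option C}

theorem Ti_halt {φ : C → ℝ≥0∞} {c : C} (h : ∀ x, st x c = none) : Ti st φ c = φ c := by
  rw [Ti_rec, h, h]
  simp

theorem Tn_halt {φ : C → ℝ≥0∞} {c : C} (h : ∀ x, st x c = none) (h0 : φ c = 0) (n : ℕ) :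
    Tn st φ n c = 0 := by
  cases n with
  | zero => exact Tn_zero st φ c
  | succ n =>
    rw [Tn_succ, h, h, h0]
    simp

theorem Tn_le_one {φ : C → ℝ≥0∞} (h1 : ∀ c, φ c ≤ 1) (h0 : ∀ c x, st x c ≠ none → φ c = 0) (n : ℕ) :
    ∀ c, Tn st φ n c ≤ 1 := by
  induction n with
  | zero => intro c; rw [Tn_zero]; exact zero_le_one
  | succ n ih =>
    intro c
    rw [Tn_succ]
    by_cases hc : ∀ x, st x c = none
    · rw [hc, hc]
      simpa using h1 c
    · push Not at hc
      obtain ⟨x, hx⟩ := hc
      rw [h0 c x hx, zero_add]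
      have h2 : ∀ o : Option C, o.elim 0 (Tn st φ n) ≤ 1 := by
        intro o
        cases o with
        | none => simp
        | some d => exact ih d
      calc _ ≤ 2⁻¹ * (1 : ℝ≥0∞) + 2⁻¹ * 1 := by
            gcongr
            · exact h2 _
            · exact h2 _
        _ = 1 := half_add_half 1

theorem Tn_le_nat {φ : C → ℝ≥0∞} (h1 : ∀ c, φ c ≤ 1) (n : ℕ) : ∀ c, Tn st φ n c ≤ n := by
  induction n with
  | zero => intro c; rw [Tn_zero]; simp
  | succ n ih =>
    intro c
    rw [Tn_succ]
    have h2 : ∀ o : Option C, o.elim 0 (Tn st φ n) ≤ n := by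
      intro o
      cases o with
      | none => simp
      | some d => exact ih d
    calc _ ≤ 1 + (2⁻¹ * (n : ℝ≥0∞) + 2⁻¹ * n) := by
          gcongr
          · exact h1 c
          · exact h2 _
          · exact h2 _
      _ = ((n + 1 : ℕ) : ℝ≥0∞) := by rw [half_add_half]; push_cast; rw [add_comm]

end gen

section Machine

variable (n : ℕ) (B0 B1 B2 : Cmd ℕ)

theorem mach_step (b : Bool) (c : (mach n B0 B1 B2).tm.Cfg) :
    (mach n B0 B1 B2).step b c = mst n B0 B1 B2 b c := by
  cases b <;> rfl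

theorem mach_exec (w : List Bool) : ∀ c : (mach n B0 B1 B2).tm.Cfg,
    (mach n B0 B1 B2).exec w c = ex (mst n B0 B1 B2) w c := by
  induction w with
  | nil => intro c; rfl
  | cons b w ih =>
    intro c
    change ((mach n B0 B1 B2).step b c).bind ((mach n B0 B1 B2).exec w) =
      (mst n B0 B1 B2 b c).bind (ex (mst n B0 B1 B2) w)
    rw [mach_step]
    have : (mach n B0 B1 B2).exec w = ex (mst n B0 B1 B2) w := funext ih
    rw [this]
    rfl

/-- the initial configuration -/
def ic (a : List Bool) : MCfg n B0 B1 B2 :=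
  ⟨some (Sum.inr (Sum.inl (fm n B2).entry)), none, stF n a [] []⟩

theorem mach_init (x : List Bool) : (mach n B0 B1 B2).init x = ic n B0 B1 B2 x := by
  unfold PTM.init initList ic
  have hx : x.map (mach n B0 B1 B2).inA.symm = x := List.map_id x
  rw [hx]
  congr 1
  funext k
  change Fin (n + 1) at k
  by_cases hk : k = (0 : Fin (n + 1))
  · subst hk
    exact Eq.trans (dif_pos rfl) rfl
  · refine Eq.trans (dif_neg hk) ?_
    have h1 : (k : ℕ) ≠ 0 := fun h => hk (Fin.ext h)
    change [] = st x [] [] (k : ℕ)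
    match (k : ℕ), h1 with
    | 0, h => exact absurd rfl h
    | 1, _ => rfl
    | 2, _ => rfl
    | m + 3, _ => rfl

theorem mach_halt (x : List Bool) :
    haltList (mach n B0 B1 B2).tm (x.map (mach n B0 B1 B2).outA.symm) = hc n B0 B1 B2 x := by
  unfold haltList hc
  have hx : x.map (mach n B0 B1 B2).outA.symm = x := List.map_id x
  rw [hx]
  congr 1
  funext k
  change Fin (n + 1) at k
  by_cases hk : k = (0 : Fin (n + 1))
  · subst hk
    exact Eq.trans (dif_pos rfl) rfl
  · refine Eq.trans (dif_neg hk) ?_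
    have h1 : (k : ℕ) ≠ 0 := fun h => hk (Fin.ext h)
    change [] = st x [] [] (k : ℕ)
    match (k : ℕ), h1 with
    | 0, h => exact absurd rfl h
    | 1, _ => rfl
    | 2, _ => rfl
    | m + 3, _ => rfl

theorem mach_exec' (w x : List Bool) : (mach n B0 B1 B2).exec w ((mach n B0 B1 B2).init x) =
    ex (mst n B0 B1 B2) w (ic n B0 B1 B2 x) :=
  (mach_exec n B0 B1 B2 w _).trans (congrArg (ex (mst n B0 B1 B2) w) (mach_init n B0 B1 B2 x))

open Classical in
/-- the indicator of a configuration -/
noncomputable def indc (d c : MCfg n B0 B1 B2) : ℝ≥0∞ := if c = d then 1 else 0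

open Classical in
/-- the indicator of the running configurations -/
noncomputable def runc (c : MCfg n B0 B1 B2) : ℝ≥0∞ := if c.l = none then 0 else 1

theorem mach_prob (x y : List Bool) : (mach n B0 B1 B2).prob x y =
    Ti (mst n B0 B1 B2) (indc n B0 B1 B2 (hc n B0 B1 B2 y)) (ic n B0 B1 B2 x) := by
  classical
  unfold PTM.prob Ti
  refine Eq.trans (tsum_subtype {w : List Bool | (mach n B0 B1 B2).Outputs x w y}
    (fun w : List Bool => (2⁻¹ : ℝ≥0∞) ^ w.length)) ?_
  apply tsum_congr
  intro w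
  rw [Set.indicator_apply]
  have h : (w ∈ {w | (mach n B0 B1 B2).Outputs x w y}) ↔
      ex (mst n B0 B1 B2) w (ic n B0 B1 B2 x) = some (hc n B0 B1 B2 y) := by
    have e1 := mach_exec' n B0 B1 B2 w x
    have e2 := mach_halt n B0 B1 B2 y
    constructor
    · intro h
      exact e1.symm.trans (Eq.trans h (congrArg some e2))
    · intro h
      exact e1.trans (h.trans (congrArg some e2).symm)
  by_cases h1 : ex (mst n B0 B1 B2) w (ic n B0 B1 B2 x) = some (hc n B0 B1 B2 y)
  · rw [if_pos (h.2 h1), h1]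
    simp [indc]
  · rw [if_neg (fun h2 => h1 (h.1 h2))]
    cases h3 : ex (mst n B0 B1 B2) w (ic n B0 B1 B2 x) with
    | none => simp
    | some d =>
      have : d ≠ hc n B0 B1 B2 y := by
        rintro rfl
        exact h1 h3
      simp [indc, this]

theorem mach_time (x : List Bool) : (mach n B0 B1 B2).expTime x =
    Ti (mst n B0 B1 B2) (runc n B0 B1 B2) (ic n B0 B1 B2 x) := by
  classical
  unfold PTM.expTime Ti
  refine Eq.trans (tsum_subtype {w : List Bool | (mach n B0 B1 B2).Runs x w}
    (fun w : List Bool => (2⁻¹ : ℝ≥0∞) ^ w.length)) ?_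
  apply tsum_congr
  intro w
  rw [Set.indicator_apply]
  have h : (w ∈ {w | (mach n B0 B1 B2).Runs x w}) ↔
      ∃ c, ex (mst n B0 B1 B2) w (ic n B0 B1 B2 x) = some c ∧ c.l ≠ none := by
    have e1 := mach_exec' n B0 B1 B2 w x
    constructor
    · rintro ⟨c, h, h'⟩
      exact ⟨c, e1.symm.trans h, h'⟩
    · rintro ⟨c, h, h'⟩
      exact ⟨c, e1.trans h, h'⟩
  by_cases h1 : ∃ c, ex (mst n B0 B1 B2) w (ic n B0 B1 B2 x) = some c ∧ c.l ≠ none
  · rw [if_pos (h.2 h1)]
    obtain ⟨c, hc1, hc2⟩ := h1
    rw [hc1]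
    simp [runc, hc2]
  · rw [if_neg (fun h2 => h1 (h.1 h2))]
    cases h3 : ex (mst n B0 B1 B2) w (ic n B0 B1 B2 x) with
    | none => simp
    | some d =>
      have : d.l = none := by
        by_contra h4
        exact h1 ⟨d, h3, h4⟩
      simp [runc, this]

theorem indc_run (d : MCfg n B0 B1 B2) (hd : d.l = none) (c : MCfg n B0 B1 B2) (x : Bool)
    (h : mst n B0 B1 B2 x c ≠ none) : indc n B0 B1 B2 d c = 0 := by
  unfold indc
  rw [if_neg]
  rintro rfl
  apply h
  obtain ⟨l, v, s⟩ := c
  simp only at hd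
  subst hd
  rfl

theorem hc_step (a : List Bool) (x : Bool) : mst n B0 B1 B2 x (hc n B0 B1 B2 a) = none := rfl

theorem indc_le (d c : MCfg n B0 B1 B2) : indc n B0 B1 B2 d c ≤ 1 := by
  unfold indc
  split_ifs <;> simp

theorem runc_le (c : MCfg n B0 B1 B2) : runc n B0 B1 B2 c ≤ 1 := by
  unfold runc
  split_ifs <;> simp

theorem hc_inj {a b : List Bool} (h : hc n B0 B1 B2 a = hc n B0 B1 B2 b) : a = b := by
  have h1 := congrArg (fun c : MCfg n B0 B1 B2 => c.stk 0) h
  exact h1

end Machine

variable {A σ β : Type} [TEnc A] [TEnc σ] [TEnc β]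

open Classical in
/-- The machine of a step function `H` which uses one coin in each round. -/
theorem exists_machine (H : Bool × σ → σ ⊕ β) (hH : Poly H) :
    ∃ Q : Polynomial ℕ, ∀ (ι : A → σ), Poly ι →
    ∃ (M : PTM) (p : Polynomial ℕ) (P : β → σ → ℝ≥0∞) (E : ℕ → σ → ℝ≥0∞),
      (∀ a y, M.prob (bits a) (bits y) = P y (ι a)) ∧
      (∀ y s, P y s =
        2⁻¹ * Sum.elim (P y) (fun y' => if y' = y then 1 else 0) (H (false, s)) +
        2⁻¹ * Sum.elim (P y) (fun y' => if y' = y then 1 else 0) (H (true, s))) ∧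
      (∀ y s, P y s ≤ 1) ∧
      (∀ a B, (∀ n, E n (ι a) ≤ B) → M.expTime (bits a) ≤ (p.eval (sz a) : ℕ) + B) ∧
      (∀ n s, E n s ≤ (Q.eval (sz s) : ℕ) +
        (2⁻¹ * Sum.elim (E n) (fun _ => 0) (H (false, s)) +
          2⁻¹ * Sum.elim (E n) (fun _ => 0) (H (true, s)))) ∧
      (∀ n s, E n s ≤ n) := by
  obtain ⟨c, q, hc1⟩ := hH
  refine ⟨q.comp (Polynomial.X + Polynomial.C 4) + Polynomial.C 15, ?_⟩
  intro ι hι
  obtain ⟨c', q', hc2⟩ := hι
  set n : ℕ := max (body c false).bd (max (body c true).bd (strt c').bd) with hn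
  have h0 : (body c false).bd ≤ n + 2 := by omega
  have h1 : (body c true).bd ≤ n + 2 := by omega
  have h2 : (strt c').bd ≤ n + 2 := by omega
  set B0 := body c false
  set B1 := body c true
  set B2 := strt c'
  set sf := mst (n + 1) B0 B1 B2 with hsf
  set R : σ → MCfg (n + 1) B0 B1 B2 := fun s => rc (n + 1) B0 B1 B2 (bits s) with hR
  set P : β → σ → ℝ≥0∞ := fun y s =>
    Ti sf (indc (n + 1) B0 B1 B2 (hc (n + 1) B0 B1 B2 (bits y))) (R s) with hP
  set E : ℕ → σ → ℝ≥0∞ := fun k s => Tn sf (runc (n + 1) B0 B1 B2) k (R s) with hE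
  refine ⟨mach (n + 1) B0 B1 B2, q' + Polynomial.C 2, P, E, ?_, ?_, ?_, ?_, ?_, ?_⟩
  · intro a y
    obtain ⟨t, ht, hD⟩ := start_DS hc2 B0 B1 h2 a
    rw [mach_prob]
    exact hD.Ti_eq (indc_run (n + 1) B0 B1 B2 _ rfl)
  · intro y s
    obtain ⟨d, hd, t, ht, hD⟩ := round_DS hc1 h0 h1 B2 false s
    obtain ⟨d', hd', t', ht', hD'⟩ := round_DS hc1 h0 h1 B2 true s
    have key : ∀ r : σ ⊕ β, Ti sf (indc (n + 1) B0 B1 B2 (hc (n + 1) B0 B1 B2 (bits y)))
        (nx (n + 1) B0 B1 B2 r) = Sum.elim (P y) (fun y' => if y' = y then 1 else 0) r := by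
      intro r
      rcases r with s' | y'
      · rfl
      · change Ti sf _ (hc (n + 1) B0 B1 B2 (bits y')) = _
        rw [Ti_halt (hc_step (n + 1) B0 B1 B2 (bits y'))]
        unfold indc
        simp only [Sum.elim_inr]
        by_cases h : y' = y
        · subst h; simp
        · rw [if_neg h, if_neg]
          intro h3
          exact h (bits_injective (hc_inj _ _ _ _ h3))
    rw [← key, ← key]
    change Ti sf _ (R s) = _
    rw [Ti_rec, indc_run (n + 1) B0 B1 B2 _ rfl (R s) false (by rw [hd]; simp), zero_add]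
    rw [show sf false (R s) = some d from hd, show sf true (R s) = some d' from hd']
    rw [Option.elim_some, Option.elim_some]
    rw [hD.Ti_eq (indc_run (n + 1) B0 B1 B2 _ rfl), hD'.Ti_eq (indc_run (n + 1) B0 B1 B2 _ rfl)]
  · intro y s
    exact Ti_le _ _ _ _ fun k => Tn_le_one (indc_le _ _ _ _ _) (indc_run (n + 1) B0 B1 B2 _ rfl) k _
  · intro a A hA
    obtain ⟨t, ht, hD⟩ := start_DS hc2 B0 B1 h2 a
    rw [mach_time]
    apply Ti_le
    intro k
    refine (hD.Tn_le (runc_le _ _ _ _) k).trans ?_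
    refine add_le_add ?_ (hA k)
    have : t ≤ (q' + Polynomial.C 2).eval (sz a) := by
      simp only [Polynomial.eval_add, Polynomial.eval_C]
      rw [bits_length] at ht
      omega
    exact_mod_cast this
  · intro k s
    cases k with
    | zero =>
      change Tn sf _ 0 (R s) ≤ _
      rw [Tn_zero]
      exact zero_le
    | succ k =>
      obtain ⟨d, hd, t, ht, hD⟩ := round_DS hc1 h0 h1 B2 false s
      obtain ⟨d', hd', t', ht', hD'⟩ := round_DS hc1 h0 h1 B2 true s
      have key : ∀ r : σ ⊕ β, Tn sf (runc (n + 1) B0 B1 B2) k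
          (nx (n + 1) B0 B1 B2 r) ≤ Sum.elim (E (k + 1)) (fun _ => 0) r := by
        intro r
        rcases r with s' | y'
        · exact Tn_mono sf _ (Nat.le_succ k) _
        · change Tn sf _ k (hc (n + 1) B0 B1 B2 (bits y')) ≤ _
          rw [Tn_halt (hc_step (n + 1) B0 B1 B2 (bits y')) (by simp [runc, hc])]
          exact zero_le
      change Tn sf _ (k + 1) (R s) ≤ _
      rw [Tn_succ, show sf false (R s) = some d from hd, show sf true (R s) = some d' from hd',
        Option.elim_some, Option.elim_some]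
      set Q : ℕ := (q.comp (Polynomial.X + Polynomial.C 4)).eval (sz s) + 14 with hQ
      have hq : ∀ b : Bool, q.eval (bits (b, s)).length + 14 ≤ Q := by
        intro b
        rw [hQ, Polynomial.eval_comp, bits_length]
        apply Nat.add_le_add_right
        apply eval_mono
        simp only [Polynomial.eval_add, Polynomial.eval_X, Polynomial.eval_C]
        have := sz_bool_le b
        simp only [sz_pair]
        omega
      calc runc (n + 1) B0 B1 B2 (R s) + (2⁻¹ * Tn sf (runc (n + 1) B0 B1 B2) k d +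
            2⁻¹ * Tn sf (runc (n + 1) B0 B1 B2) k d')
          ≤ 1 + (2⁻¹ * (Q + Sum.elim (E (k + 1)) (fun _ => 0) (H (false, s))) +
            2⁻¹ * (Q + Sum.elim (E (k + 1)) (fun _ => 0) (H (true, s)))) := by
            gcongr
            · exact runc_le _ _ _ _ _
            · refine (hD.Tn_le (runc_le _ _ _ _) k).trans (add_le_add ?_ (key _))
              exact_mod_cast ht.trans (hq false)
            · refine (hD'.Tn_le (runc_le _ _ _ _) k).trans (add_le_add ?_ (key _))
              exact_mod_cast ht'.trans (hq true)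
        _ = 1 + Q + (2⁻¹ * Sum.elim (E (k + 1)) (fun _ => 0) (H (false, s)) +
            2⁻¹ * Sum.elim (E (k + 1)) (fun _ => 0) (H (true, s))) := by
            have h3 := half_add_half (Q : ℝ≥0∞)
            calc _ = 1 + ((2⁻¹ * (Q : ℝ≥0∞) + 2⁻¹ * Q) +
                (2⁻¹ * Sum.elim (E (k + 1)) (fun _ => 0) (H (false, s)) +
                  2⁻¹ * Sum.elim (E (k + 1)) (fun _ => 0) (H (true, s)))) := by ring
              _ = _ := by rw [h3, add_assoc]
        _ ≤ _ := by
            gcongr
            have : 1 + Q ≤ (q.comp (Polynomial.X + Polynomial.C 4) + Polynomial.C 15).eval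
                (sz s) := by
              simp only [Polynomial.eval_add, Polynomial.eval_C]
              omega
            exact_mod_cast this
  · intro k s
    exact Tn_le_nat (runc_le _ _ _ _) k _

end Pool.Agent.H73.ST
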