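import Pool.Agent.H73.ST.Span
import Pool.Agent.H671R2.PolyAuto

/-!
# The two descriptions of spanning trees
-/

set_option autoImplicit false

namespace Pool.Agent.H73.ST

open Pool.Agent Pool.Agent.NPC

/-- the subcomplex with the list `S` of faces of top dimension -/
def full (F S : List (List ℕ)) : List (List ℕ) :=
  F.filter fun σ => decide (σ.length ≠ maxLen F ∨ σ ∈ S)

/-- the faces of top dimension in the list `U` -/
def topl (F U : List (List ℕ)) : List (List ℕ) := U.filter fun σ => decide (σ.length = maxLen F)

theorem mem_topl {F U : List (List ℕ)} {σ : List ℕ} : σ ∈ topl F U ↔ σ ∈ tops F U := by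
  simp [topl, tops]

theorem tp_eq_topl (F : List (List ℕ)) : tp F = topl F F := rfl

theorem filter_mem_eq {γ : Type} [DecidableEq γ] {S L : List γ} (h : S.Sublist L) (hL : L.Nodup) :
    L.filter (fun x => decide (x ∈ S)) = S := by
  induction h with
  | slnil => rfl
  | @cons S L a h ih =>
    rw [List.nodup_cons] at hL
    have ha : a ∉ S := fun ha => hL.1 (h.subset ha)
    rw [List.filter_cons_of_neg (by simpa using ha)]
    exact ih hL.2
  | @cons_cons S L a h ih =>
    rw [List.nodup_cons] at hL
    rw [List.filter_cons_of_pos (by simp)]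
    congr 1
    rw [← ih hL.2]
    apply List.filter_congr
    intro x hx
    have : x ≠ a := fun e => hL.1 (e ▸ hx)
    rw [ih hL.2]
    simp [this]

theorem topl_full {F S : List (List ℕ)} (hF : F.Nodup) (hS : S.Sublist (tp F)) :
    topl F (full F S) = S := by
  unfold topl full
  rw [List.filter_filter]
  have h2 := filter_mem_eq hS (hF.filter _)
  conv_rhs => rw [← h2]
  unfold tp
  rw [List.filter_filter]
  apply List.filter_congr
  intro σ _
  by_cases h1 : σ.length = maxLen F <;> simp [h1]

theorem length_le_maxLen {F : List (List ℕ)} : ∀ σ ∈ F, σ.length ≤ maxLen F := by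
  unfold maxLen
  induction F with
  | nil => intro σ h; simp at h
  | cons τ F ih =>
    intro σ h
    rw [List.map_cons, List.foldr_cons]
    rcases List.mem_cons.1 h with rfl | h
    · exact le_max_left _ _
    · exact (ih σ h).trans (le_max_right _ _)

theorem full_topl {F U : List (List ℕ)} (hF : F.Nodup) (hU : U.Sublist F)
    (hs : ∀ σ ∈ F, σ.length < maxLen F → σ ∈ U) : full F (topl F U) = U := by
  conv_rhs => rw [← filter_mem_eq hU hF]
  unfold full
  apply List.filter_congr
  intro σ hσ
  rw [decide_eq_decide, mem_topl]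
  constructor
  · rintro (h | h)
    · exact hs σ hσ (lt_of_le_of_ne (length_le_maxLen σ hσ) h)
    · exact h.1
  · intro h
    by_cases h1 : σ.length = maxLen F
    · exact Or.inr ⟨h, h1⟩
    · exact Or.inl h1

theorem indep_iff {S : List (List ℕ)} (hS : S.Nodup) :
    LinearIndependent ℚ (fun i : Fin S.length => bd (S.get i)) ↔
      LinearIndepOn ℚ bd {τ | τ ∈ S} := by
  unfold LinearIndepOn
  rw [← linearIndependent_equiv (hS.getEquiv)]
  rfl

theorem isTree_topl {F U : List (List ℕ)} (hF : F.Nodup) (h : IsSpanningTree F U) :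
    IsTree F (topl F U) := by
  have e : {τ | τ ∈ topl F U} = tops F U := by
    ext τ
    exact mem_topl
  refine ⟨h.sub.filter _, ?_, ?_⟩
  · have hn : (topl F U).Nodup := (h.sub.nodup hF).filter _
    rw [indep_iff hn, e]
    exact h.indep
  · intro σ hσ
    rw [e]
    exact h.span σ (mem_topl.1 hσ)

theorem isSpanningTree_full {F S : List (List ℕ)} (hF : F.Nodup) (h : IsTree F S) :
    IsSpanningTree F (full F S) := by
  have e : tops F (full F S) = {τ | τ ∈ S} := by
    ext τ
    rw [← mem_topl, topl_full hF h.1]
    rfl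
  refine ⟨List.filter_sublist, ?_, ?_, ?_⟩
  · intro σ hσ hl
    unfold full
    rw [List.mem_filter]
    exact ⟨hσ, by simpa using Or.inl hl.ne⟩
  · rw [e, ← indep_iff (h.1.nodup (hF.filter _))]
    exact h.2.1
  · intro σ hσ
    rw [e]
    exact h.2.2 σ (mem_topl.2 hσ)

theorem isSpanningTree_iff {F U : List (List ℕ)} (hF : F.Nodup) :
    IsSpanningTree F U ↔ ∃ S, IsTree F S ∧ U = full F S := by
  constructor
  · intro h
    exact ⟨topl F U, isTree_topl hF h, (full_topl hF h.sub h.skel).symm⟩
  · rintro ⟨S, h, rfl⟩
    exact isSpanningTree_full hF h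

end Pool.Agent.H73.ST
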