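import Pool.Agent.H73.ST.Gather
import Pool.Agent.H73.ST.Algo

/-!
# Statement of the part TIME of the exact sampler (MP_d8fb5e_lc)
-/

set_option autoImplicit false

namespace Pool.Agent.H73.ST

open Pool.Agent Pool.Agent.NPC
open scoped ENNReal

/-- Part TIME: the expected running time is polynomial, if the length of the unary number is
`Q.natDegree * N + 1`. -/
def S_TIME : Prop :=
  ∀ (α β : Type) (_ : TEnc α) (_ : TEnc β) (nf : α → ℕ) (ind : α × List Bool → Bool)
    (out : α × List Bool → β) (R Q : Polynomial ℕ), (∀ a, nf a ≤ R.eval (sz a)) →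
    ∃ B : Polynomial ℕ, ∀ (a : α) (E : ((α × List Unit) × Tag) × ℕ → ℝ≥0∞) (c : ℕ),
      (∀ s, E s ≤ (Q.eval (sz s) : ℕ) +
        Sum.elim (fun q => avg q.2.length (fun i => E (q.1, i))) (fun _ => 0)
          (next nf ind out s)) →
      (∀ s, E s ≤ (c : ℝ≥0∞)) →
      E (((a, un (Q.natDegree * nf a + 1)), Sum.inl false), 0) ≤ (B.eval (sz a) : ℕ)

end Pool.Agent.H73.ST
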