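import Pool.Agent.NPC.Num

/-!
# Statements of the parts of the exact sampler for simplicial spanning trees (MP_d8fb5e_lc)
-/

set_option autoImplicit false

namespace Pool.Agent.H73.ST

open Finset Pool.Agent.NPC

/-- `F` is the family of the bases of a matroid of rank `r` on a finite set of natural numbers -/
structure MBases (F : Finset (Finset ℕ)) (r : ℕ) : Prop where
  card : ∀ B ∈ F, B.card = r
  exch : ∀ B ∈ F, ∀ B' ∈ F, ∀ x ∈ B \ B', ∃ y ∈ B' \ B, insert y (B.erase x) ∈ F

/-- Part POIN: the Poincaré inequality of the basis exchange graph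
(Anari-Liu-Oveis Gharan-Vinzant). -/
def S_POIN : Prop :=
  ∀ (F : Finset (Finset ℕ)) (r : ℕ), MBases F r → ∀ f : Finset ℕ → ℝ, ∑ B ∈ F, f B = 0 →
    4 * ∑ B ∈ F, f B ^ 2 ≤
      ∑ B ∈ F, ∑ B' ∈ F.filter (fun B' => (B ∩ B').card + 1 = r), (f B - f B') ^ 2

/-- the integers `0`, `1`, `-1` coded by `0`, `1`, `2` -/
def dv (e : ℕ) : ℤ := if e = 1 then 1 else if e = 2 then -1 else 0

/-- Part IND: linear independence over `ℚ` of vectors with entries `0`, `1`, `-1` is decided in
polynomial time. -/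
def S_IND : Prop :=
  ∃ t : List (List ℕ) → Bool, Poly t ∧
    ∀ (n : ℕ) (vs : List (List ℕ)), (∀ v ∈ vs, v.length = n) →
      (t vs = true ↔ LinearIndependent ℚ
        (fun i : Fin vs.length => fun j : Fin n => ((dv ((vs.get i).getD j 0) : ℤ) : ℚ)))

end Pool.Agent.H73.ST
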