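import Pool.Agent.H73.ST.Ana
import Pool.Agent.H73.ST.Stm4
import Pool.Agent.H73.ST.Full
import Pool.Agent.Helper98.ST.Poin
import Pool.Agent.Helper31.ST.Ind
import Pool.Agent.Helper80ST.Algp
import Pool.Agent.Helper44.ST.TreeP
import Pool.Agent.Helper9ST.Tree

/-!
# Exact uniform sampling of simplicial spanning trees in expected polynomial time
-/

set_option autoImplicit false

namespace Pool.Agent.H73.ST

open Pool.Agent Pool.Agent.NPC
open scoped ENNReal

attribute [local fun_prop] Pool.Agent.H44.ST.poly_maxLen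

theorem poly_full {α : Type} [TEnc α] {F S : α → List (List ℕ)} (hF : NPC.Poly F)
    (hS : NPC.Poly S) : NPC.Poly (fun a => full (F a) (S a)) := by
  unfold full
  fun_prop

theorem main (hT : S_TIME) : ∃ (M : PTM) (p : Polynomial ℕ), ∀ F : List (List ℕ), IsComplex F →
    0 < {U | IsSpanningTree F U}.ncard ∧
    (∀ U, IsSpanningTree F U →
      M.prob (bits F) (bits U) = 1 / ({U | IsSpanningTree F U}.ncard : ℕ)) ∧
    M.expTime (bits F) ≤ (p.eval F.length : ℕ) := by
  obtain ⟨t, ht, hspec⟩ := Pool.Agent.Helper31.ST.s_ind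
  have hspec' : IndSpec t := hspec
  obtain ⟨hindP, hnf, hsel, p0, hp0⟩ := Pool.Agent.H44.ST.t_TREEP
  obtain ⟨R, hR⟩ := hnf.sz_le
  have hR' : ∀ F : List (List ℕ), (tp F).length ≤ R.eval (sz F) := by
    intro F
    have h1 : sz (List.replicate (tp F).length ()) ≤ R.eval (sz F) := hR F
    have h2 := length_lt_sz (List.replicate (tp F).length ())
    rw [List.length_replicate] at h2
    omega
  set nf : List (List ℕ) → ℕ := fun F => (tp F).length with hnfdef
  set out : List (List ℕ) × List Bool → List (List ℕ) := fun q => full q.1 (sel (tp q.1) q.2)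
    with hout
  have houtP : NPC.Poly out := poly_full (NPC.Poly.fst NPC.Poly.id) hsel
  obtain ⟨Q, hQ⟩ := phase_machine (A := List (List ℕ)) (next nf (indF t) out)
    (Pool.Agent.Helper80ST.t_ALGP (List (List ℕ)) (List (List ℕ)) inferInstance inferInstance nf (indF t) out hnf (hindP t ht) houtP)
  obtain ⟨B, hB⟩ := hT (List (List ℕ)) (List (List ℕ)) inferInstance inferInstance nf (indF t) out R Q hR'
  have hι : NPC.Poly (fun F : List (List ℕ) =>
      (((F, un (Q.natDegree * nf F + 1)), Sum.inl false) : (List (List ℕ) × List Unit) × Tag)) := by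
    have h1 : UPoly (fun F : List (List ℕ) => Q.natDegree * nf F + 1) :=
      (UPoly.mul (UPoly.const _) hnf).add (UPoly.const 1)
    have h2 : NPC.Poly (fun F : List (List ℕ) => un (Q.natDegree * nf F + 1)) := h1
    fun_prop
  obtain ⟨M, p, P, E, hM, hP, hP1, hTm, hE, hEn⟩ := hQ _ hι
  refine ⟨M, (p + B).comp p0, fun F hF => ?_⟩
  obtain ⟨hsys, htree, hinj⟩ := Pool.Agent.Helper9ST.t_TREE t hspec' F hF
  set I : List Bool → Bool := fun y => indF t (F, y) with hI
  -- the spanning trees are the outputs for the bases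
  have hset : {U | IsSpanningTree F U} = (fun y => out (F, y)) '' (↑(Bs (nf F) I) : Set (List Bool)) := by
    ext U
    rw [Set.mem_setOf_eq, isSpanningTree_iff hF.nodup]
    constructor
    · rintro ⟨S, hS, rfl⟩
      obtain ⟨y, hy, rfl⟩ := (htree S).1 hS
      exact ⟨y, Finset.mem_coe.2 ((mem_Bs hsys).2 hy), rfl⟩
    · rintro ⟨y, hy, rfl⟩
      exact ⟨sel (tp F) y, (htree _).2 ⟨y, (mem_Bs hsys).1 (Finset.mem_coe.1 hy), rfl⟩, rfl⟩
  have hinj' : ∀ y ∈ Bs (nf F) I, ∀ z ∈ Bs (nf F) I, out (F, y) = out (F, z) → y = z := by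
    intro y hy z hz h
    have t1 : IsTree F (sel (tp F) y) := (htree _).2 ⟨y, (mem_Bs hsys).1 hy, rfl⟩
    have t2 : IsTree F (sel (tp F) z) := (htree _).2 ⟨z, (mem_Bs hsys).1 hz, rfl⟩
    apply hinj y z ((mem_Bs hsys).1 hy).1 ((mem_Bs hsys).1 hz).1
    rw [← topl_full hF.nodup t1.1, ← topl_full hF.nodup t2.1]
    exact congrArg (topl F) h
  have hcard : {U | IsSpanningTree F U}.ncard = (Bs (nf F) I).card := by
    rw [hset, Set.ncard_image_of_injOn, Set.ncard_coe_finset]
    intro y hy z hz h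
    exact hinj' y (Finset.mem_coe.1 hy) z (Finset.mem_coe.1 hz) h
  refine ⟨by rw [hcard]; exact Bs_pos hsys, ?_, ?_⟩
  · intro U hU
    have hU' : U ∈ {U | IsSpanningTree F U} := hU
    rw [hset] at hU'
    obtain ⟨y0, hy0, rfl⟩ := hU'
    rw [hM, hcard]
    exact prob_eq Pool.Agent.Helper98.ST.t_POIN (by omega) hsys (Finset.mem_coe.1 hy0)
      (fun y hy h => hinj' y hy y0 (Finset.mem_coe.1 hy0) h) (hP _) (hP1 _)
  · have h1 := hTm F ((B.eval (sz F) : ℕ) : ℝ≥0∞) (fun n => hB F (E n) n (hE n) (hEn n))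
    refine h1.trans ?_
    have h2 : p.eval (sz F) + B.eval (sz F) ≤ ((p + B).comp p0).eval F.length := by
      rw [Polynomial.eval_comp, Polynomial.eval_add]
      exact Nat.add_le_add (eval_mono _ (hp0 F hF)) (eval_mono _ (hp0 F hF))
    exact_mod_cast h2

end Pool.Agent.H73.ST
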