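import Pool.Agent.H73.ST.Walk
import Pool.Agent.H73.ST.Stm

/-!
# The exchange walk on the bases: the gap inequality
-/

set_option autoImplicit false

namespace Pool.Agent.H73.ST

open Pool.Agent Pool.Agent.NPC Finset

variable {N : ℕ} {I : List Bool → Bool}

theorem N_lt_B (N : ℕ) : N < 2 ^ m0 N := by
  have h1 : N < 2 ^ N.size := Nat.lt_size_self N
  have h2 : 2 ^ N.size ≤ 2 ^ m0 N := Nat.pow_le_pow_right (by norm_num) (by unfold m0; omega)
  omega

theorem two_N_le_B (N : ℕ) : 2 * N ≤ 2 ^ m0 N := by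
  have h1 : N < 2 ^ N.size := Nat.lt_size_self N
  have h2 : 2 ^ m0 N = 2 * 2 ^ N.size := by unfold m0; rw [pow_succ]; ring
  omega

theorem b_eq (N : ℕ) : 2 ^ (2 * m0 N) = 2 ^ m0 N * 2 ^ m0 N := by
  rw [two_mul, pow_add]

theorem two_le_b (N : ℕ) : 2 ≤ 2 ^ (2 * m0 N) := by
  have : 2 ^ 1 ≤ 2 ^ (2 * m0 N) := Nat.pow_le_pow_right (by norm_num) (by unfold m0; omega)
  simpa using this

theorem mbases (h : IndSys N I) : MBases ((Bs N I).image (fs N)) (cntT (grd N I)) where
  card := by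
    intro A hA
    obtain ⟨y, hy, rfl⟩ := mem_image.1 hA
    rw [mem_Bs'] at hy
    rw [← cntT_eq hy.1, hy.2.2]
  exch := by
    intro A hA A' hA' x hx
    obtain ⟨y, hy, rfl⟩ := mem_image.1 hA
    obtain ⟨z, hz, rfl⟩ := mem_image.1 hA'
    rw [mem_Bs'] at hy hz
    rw [Finset.mem_sdiff] at hx
    set y' := mk N (fun i => if i = x then false else y.getD i false) with hy'
    have e1 : fs N y' = (fs N y).erase x := by
      rw [hy', fs_mk]
      ext i
      rw [Finset.mem_filter, Finset.mem_erase, mem_fs, Finset.mem_range]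
      by_cases hi : i = x <;> simp [hi]
    have hI' : I y' = true := by
      refine h.hered y y' hy.1 (length_mk _ _) ?_ hy.2.1
      intro i hi
      have hiN := getD_lt hi
      rw [length_mk] at hiN
      rw [hy', getD_mk _ hiN] at hi
      split_ifs at hi
      exact hi
    have hx1 := hx.1
    have hlt : cntT y' < cntT z := by
      rw [cntT_eq (length_mk _ _), e1, Finset.card_erase_of_mem hx.1, ← cntT_eq hy.1, hz.2.2, hy.2.2]
      have : 0 < (fs N y).card := Finset.card_pos.2 ⟨x, hx.1⟩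
      rw [← cntT_eq hy.1, hy.2.2] at this
      omega
    obtain ⟨i, hi, h1, h2, h3⟩ := h.aug y' z (length_mk _ _) hz.1 hI' hz.2.1 hlt
    have hiz : i ∈ fs N z := mem_fs.2 ⟨hi, h2⟩
    have hix : i ≠ x := by
      rintro rfl
      exact hx.2 hiz
    have hiy : i ∉ fs N y := by
      intro hiy
      rw [hy', getD_mk _ hi, if_neg hix] at h1
      rw [mem_fs, h1] at hiy
      exact absurd hiy.2 (by simp)
    have e2 : fs N (setT N i y') = insert i ((fs N y).erase x) := by
      rw [← e1, setT_eq, fs_mk]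
      ext k
      rw [Finset.mem_filter, Finset.mem_insert, mem_fs, Finset.mem_range]
      by_cases hk : k = i
      · simp [hk, hi]
      · simp [hk]
    refine ⟨i, Finset.mem_sdiff.2 ⟨hiz, hiy⟩, mem_image.2 ⟨setT N i y', ?_, e2⟩⟩
    rw [mem_Bs']
    refine ⟨length_setT _ _ _, h3, ?_⟩
    rw [cntT_eq (length_setT _ _ _), e2, Finset.card_insert_of_notMem (fun h4 =>
      hiy (Finset.mem_of_mem_erase h4)), Finset.card_erase_of_mem hx.1, ← cntT_eq hy.1, hy.2.2]
    have : 0 < (fs N y).card := Finset.card_pos.2 ⟨x, hx.1⟩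
    rw [← cntT_eq hy.1, hy.2.2] at this
    omega

/-- adjacent bases are joined by a move -/
theorem exists_move {y z : List Bool} (hy : y ∈ Bs N I) (hz : z ∈ Bs N I)
    (hc : (fs N y ∩ fs N z).card + 1 = cntT (grd N I)) :
    ∃ v ∈ range (2 ^ (2 * m0 N)), mov N (2 ^ m0 N) I v y = z := by
  rw [mem_Bs'] at hy hz
  have c1 : (fs N y).card = cntT (grd N I) := by rw [← cntT_eq hy.1, hy.2.2]
  have c2 : (fs N z).card = cntT (grd N I) := by rw [← cntT_eq hz.1, hz.2.2]
  have d1 : (fs N y \ fs N z).card = 1 := by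
    have := Finset.card_sdiff_add_card_inter (fs N y) (fs N z)
    omega
  have d2 : (fs N z \ fs N y).card = 1 := by
    have := Finset.card_sdiff_add_card_inter (fs N z) (fs N y)
    rw [Finset.inter_comm] at this
    omega
  obtain ⟨i, hi⟩ := Finset.card_eq_one.1 d1
  obtain ⟨j, hj⟩ := Finset.card_eq_one.1 d2
  have hi1 : i ∈ fs N y ∧ i ∉ fs N z := Finset.mem_sdiff.1 (by rw [hi]; simp)
  have hj1 : j ∈ fs N z ∧ j ∉ fs N y := Finset.mem_sdiff.1 (by rw [hj]; simp)
  have hiN := (mem_fs.1 hi1.1).1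
  have hjN := (mem_fs.1 hj1.1).1
  have hB := N_lt_B N
  have hiy : y.getD i false = true := (mem_fs.1 hi1.1).2
  have hjz : z.getD j false = true := (mem_fs.1 hj1.1).2
  have hiz : z.getD i false = false := by
    by_contra h1
    exact hi1.2 (mem_fs.2 ⟨hiN, by simpa using h1⟩)
  have hjy : y.getD j false = false := by
    by_contra h1
    exact hj1.2 (mem_fs.2 ⟨hjN, by simpa using h1⟩)
  have e : swp N i j y = z := by
    apply mask_ext (length_swp _ _ _ _) hz.1
    intro k hk
    rw [swp_eq, getD_mk _ hk]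
    by_cases h1 : k = i
    · subst h1
      rw [if_pos rfl, hjy, hiz]
    · rw [if_neg h1]
      by_cases h2 : k = j
      · subst h2
        rw [if_pos rfl, hiy, hjz]
      · rw [if_neg h2]
        cases h3 : y.getD k false <;> cases h4 : z.getD k false
        · rfl
        · exfalso
          have : k ∈ fs N z \ fs N y := Finset.mem_sdiff.2 ⟨mem_fs.2 ⟨hk, h4⟩, fun h5 => by
            rw [mem_fs, h3] at h5; exact absurd h5.2 (by simp)⟩
          rw [hj] at this
          exact h2 (by simpa using this)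
        · exfalso
          have : k ∈ fs N y \ fs N z := Finset.mem_sdiff.2 ⟨mem_fs.2 ⟨hk, h3⟩, fun h5 => by
            rw [mem_fs, h4] at h5; exact absurd h5.2 (by simp)⟩
          rw [hi] at this
          exact h1 (by simpa using this)
        · rfl
  refine ⟨i * 2 ^ m0 N + j, ?_, ?_⟩
  · rw [mem_range, b_eq]
    calc i * 2 ^ m0 N + j < i * 2 ^ m0 N + 2 ^ m0 N := by omega
      _ = (i + 1) * 2 ^ m0 N := by ring
      _ ≤ 2 ^ m0 N * 2 ^ m0 N := Nat.mul_le_mul_right _ (by omega)
  · have e1 : (i * 2 ^ m0 N + j) / 2 ^ m0 N = i := by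
      rw [mul_comm, Nat.mul_add_div (by positivity), Nat.div_eq_of_lt (by omega), add_zero]
    have e2 : (i * 2 ^ m0 N + j) % 2 ^ m0 N = j := by
      rw [mul_comm, Nat.mul_add_mod, Nat.mod_eq_of_lt (by omega)]
    unfold mov
    rw [e1, e2, if_pos ⟨hiN, hjN, by rw [e]; exact hz.2.1⟩, e]

theorem gap (hp : S_POIN) (h : IndSys N I) (f : List Bool → ℝ) (hf : ∑ y ∈ Bs N I, f y = 0) :
    4 * ∑ y ∈ Bs N I, f y ^ 2 ≤ ∑ y ∈ Bs N I, ∑ v ∈ range (2 ^ (2 * m0 N)),
      (f (mov N (2 ^ m0 N) I v y) - f y) ^ 2 := by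
  classical
  set g : Finset ℕ → ℝ := fun A => f (mk N fun i => decide (i ∈ A)) with hg
  have hgf : ∀ y ∈ Bs N I, g (fs N y) = f y := by
    intro y hy
    rw [mem_Bs'] at hy
    have : (mk N fun i => decide (i ∈ fs N y)) = y := by
      apply mask_ext (length_mk _ _) hy.1
      intro i hi
      rw [getD_mk _ hi]
      cases h1 : y.getD i false
      · exact decide_eq_false (fun h2 => by
          rw [mem_fs, h1] at h2
          exact absurd h2.2 (by simp))
      · exact decide_eq_true (mem_fs.2 ⟨hi, h1⟩)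
    rw [hg]
    simp only [this]
  have hinj : Set.InjOn (fs N) (Bs N I : Set (List Bool)) := by
    intro y hy z hz hyz
    rw [Finset.mem_coe, mem_Bs'] at hy hz
    exact fs_inj hy.1 hz.1 hyz
  have key := hp ((Bs N I).image (fs N)) (cntT (grd N I)) (mbases h) g (by
    rw [Finset.sum_image hinj]
    rw [← hf]
    exact Finset.sum_congr rfl hgf)
  rw [Finset.sum_image hinj, Finset.sum_image hinj] at key
  have e1 : ∑ y ∈ Bs N I, g (fs N y) ^ 2 = ∑ y ∈ Bs N I, f y ^ 2 :=
    Finset.sum_congr rfl fun y hy => by rw [hgf y hy]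
  rw [e1] at key
  refine key.trans (Finset.sum_le_sum ?_)
  intro y hy
  have hex : ∀ A' ∈ ((Bs N I).image (fs N)).filter
      (fun B' => (fs N y ∩ B').card + 1 = cntT (grd N I)),
      ∃ v ∈ range (2 ^ (2 * m0 N)), fs N (mov N (2 ^ m0 N) I v y) = A' ∧
        g A' = f (mov N (2 ^ m0 N) I v y) := by
    intro A' hA'
    rw [Finset.mem_filter] at hA'
    obtain ⟨z, hz, rfl⟩ := mem_image.1 hA'.1
    obtain ⟨v, hv, hvz⟩ := exists_move hy hz hA'.2
    exact ⟨v, hv, by rw [hvz], by rw [hvz, hgf z hz]⟩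
  choose! φ hφ1 hφ2 hφ3 using hex
  have hinj2 : Set.InjOn φ (((Bs N I).image (fs N)).filter
      (fun B' => (fs N y ∩ B').card + 1 = cntT (grd N I)) : Set (Finset ℕ)) := by
    intro A hA A' hA' hAA
    rw [← hφ2 A hA, ← hφ2 A' hA', hAA]
  calc ∑ B' ∈ ((Bs N I).image (fs N)).filter (fun B' => (fs N y ∩ B').card + 1 = cntT (grd N I)),
        (g (fs N y) - g B') ^ 2
      = ∑ B' ∈ ((Bs N I).image (fs N)).filter (fun B' => (fs N y ∩ B').card + 1 = cntT (grd N I)),
        (fun v => (f (mov N (2 ^ m0 N) I v y) - f y) ^ 2) (φ B') := by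
        refine Finset.sum_congr rfl fun B' hB' => ?_
        rw [hφ3 B' hB', hgf y hy]
        ring
    _ = ∑ v ∈ (((Bs N I).image (fs N)).filter
          (fun B' => (fs N y ∩ B').card + 1 = cntT (grd N I))).image φ,
        (f (mov N (2 ^ m0 N) I v y) - f y) ^ 2 := by
        rw [Finset.sum_image hinj2]
    _ ≤ _ := by
        refine Finset.sum_le_sum_of_subset_of_nonneg ?_ (fun _ _ _ => sq_nonneg _)
        intro v hv
        obtain ⟨A', hA', rfl⟩ := mem_image.1 hv
        exact hφ1 A' hA'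

end Pool.Agent.H73.ST
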