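import Pool.Agent.H73.ST.PTM

/-!
# Probabilistic transition systems: sums over coin strings
-/

set_option autoImplicit false

namespace Pool.Agent.H73.ST

open scoped ENNReal

/-- lists of bits: empty, or a first bit and the rest -/
def listEquiv : Unit ⊕ (List Bool ⊕ List Bool) ≃ List Bool where
  toFun s := match s with
    | Sum.inl _ => []
    | Sum.inr (Sum.inl w) => false :: w
    | Sum.inr (Sum.inr w) => true :: w
  invFun w := match w with
    | [] => Sum.inl ()
    | false :: w => Sum.inr (Sum.inl w)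
    | true :: w => Sum.inr (Sum.inr w)
  left_inv s := by
    rcases s with _ | w | w <;> rfl
  right_inv w := by
    rcases w with _ | ⟨b, w⟩
    · rfl
    · cases b <;> rfl

theorem tsum_list (f : List Bool → ℝ≥0∞) :
    ∑' w, f w = f [] + (∑' w, f (false :: w) + ∑' w, f (true :: w)) := by
  rw [← listEquiv.tsum_eq f]
  rw [Summable.tsum_sum ENNReal.summable ENNReal.summable]
  rw [Summable.tsum_sum ENNReal.summable ENNReal.summable]
  rw [tsum_fintype]
  simp [listEquiv]


section gen

variable {C : Type} (st : Bool → C → Option C)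

/-- execution with a string of coins -/
def ex : List Bool → C → Option C
  | [], c => some c
  | b :: w, c => (st b c).bind (ex w)

/-- the sum of `2 ^ (-|w|) φ` over the configurations reached with all coin strings `w` -/
noncomputable def Ti (φ : C → ℝ≥0∞) (c : C) : ℝ≥0∞ :=
  ∑' w : List Bool, (2⁻¹ : ℝ≥0∞) ^ w.length * (ex st w c).elim 0 φ

/-- the same for the strings of length less than `n` -/
noncomputable def Tn (φ : C → ℝ≥0∞) (n : ℕ) (c : C) : ℝ≥0∞ :=
  ∑' w : List Bool, if w.length < n then (2⁻¹ : ℝ≥0∞) ^ w.length * (ex st w c).elim 0 φ else 0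

theorem elim_bind (o : Option C) (w : List Bool) (φ : C → ℝ≥0∞) :
    (o.bind (ex st w)).elim 0 φ = o.elim 0 (fun c => (ex st w c).elim 0 φ) := by
  cases o <;> rfl

theorem tsum_opt (o : Option C) (F : List Bool → C → ℝ≥0∞) :
    ∑' w, o.elim 0 (F w) = o.elim 0 (fun c => ∑' w, F w c) := by
  cases o <;> simp

theorem Ti_rec (φ : C → ℝ≥0∞) (c : C) :
    Ti st φ c = φ c + (2⁻¹ * (st false c).elim 0 (Ti st φ) + 2⁻¹ * (st true c).elim 0 (Ti st φ)) := by
  have h : ∀ b : Bool, ∑' w : List Bool, (2⁻¹ : ℝ≥0∞) ^ (b :: w).length *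
      (ex st (b :: w) c).elim 0 φ = 2⁻¹ * (st b c).elim 0 (Ti st φ) := by
    intro b
    have h1 : ∀ w : List Bool, (2⁻¹ : ℝ≥0∞) ^ (b :: w).length * (ex st (b :: w) c).elim 0 φ =
        2⁻¹ * (st b c).elim 0 (fun c => (2⁻¹ : ℝ≥0∞) ^ w.length * (ex st w c).elim 0 φ) := by
      intro w
      change (2⁻¹ : ℝ≥0∞) ^ (w.length + 1) * ((st b c).bind (ex st w)).elim 0 φ = _
      rw [elim_bind]
      cases st b c
      · simp
      · simp only [Option.elim_some]
        ring
    rw [tsum_congr h1, ENNReal.tsum_mul_left, tsum_opt]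
    rfl
  unfold Ti
  rw [tsum_list, h false, h true]
  simp [ex]
  rfl

theorem Tn_zero (φ : C → ℝ≥0∞) (c : C) : Tn st φ 0 c = 0 := by
  simp [Tn]

theorem Tn_succ (φ : C → ℝ≥0∞) (n : ℕ) (c : C) :
    Tn st φ (n + 1) c =
      φ c + (2⁻¹ * (st false c).elim 0 (Tn st φ n) + 2⁻¹ * (st true c).elim 0 (Tn st φ n)) := by
  have h : ∀ b : Bool, ∑' w : List Bool, (if (b :: w).length < n + 1 then
      (2⁻¹ : ℝ≥0∞) ^ (b :: w).length * (ex st (b :: w) c).elim 0 φ else 0) =
      2⁻¹ * (st b c).elim 0 (Tn st φ n) := by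
    intro b
    have h1 : ∀ w : List Bool, (if (b :: w).length < n + 1 then
        (2⁻¹ : ℝ≥0∞) ^ (b :: w).length * (ex st (b :: w) c).elim 0 φ else 0) =
        2⁻¹ * (st b c).elim 0 (fun c => if w.length < n then
          (2⁻¹ : ℝ≥0∞) ^ w.length * (ex st w c).elim 0 φ else 0) := by
      intro w
      by_cases hw : w.length < n
      · rw [if_pos (show (b :: w).length < n + 1 by simpa using hw)]
        simp only [if_pos hw]
        change (2⁻¹ : ℝ≥0∞) ^ (w.length + 1) * ((st b c).bind (ex st w)).elim 0 φ = _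
        rw [elim_bind]
        cases st b c
        · simp
        · simp only [Option.elim_some]
          ring
      · rw [if_neg (show ¬ (b :: w).length < n + 1 by simpa using hw)]
        simp only [if_neg hw]
        cases st b c <;> simp
    rw [tsum_congr h1, ENNReal.tsum_mul_left, tsum_opt]
    rfl
  unfold Tn
  rw [tsum_list, h false, h true]
  simp [ex]
  rfl

theorem Tn_le_Ti (φ : C → ℝ≥0∞) (n : ℕ) (c : C) : Tn st φ n c ≤ Ti st φ c := by
  unfold Tn Ti
  apply ENNReal.tsum_le_tsum
  intro w
  split_ifs <;> simp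

theorem Tn_mono (φ : C → ℝ≥0∞) {m n : ℕ} (h : m ≤ n) (c : C) : Tn st φ m c ≤ Tn st φ n c := by
  unfold Tn
  apply ENNReal.tsum_le_tsum
  intro w
  by_cases h1 : w.length < m
  · rw [if_pos h1, if_pos (h1.trans_le h)]
  · rw [if_neg h1]; simp

theorem Ti_le (φ : C → ℝ≥0∞) (c : C) (A : ℝ≥0∞) (h : ∀ n, Tn st φ n c ≤ A) : Ti st φ c ≤ A := by
  unfold Ti
  rw [ENNReal.tsum_eq_iSup_sum]
  apply iSup_le
  intro s
  refine le_trans ?_ (h (s.sup List.length + 1))
  refine le_trans ?_ (ENNReal.sum_le_tsum s)
  apply Finset.sum_le_sum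
  intro w hw
  rw [if_pos]
  exact Nat.lt_succ_of_le (Finset.le_sup (f := List.length) hw)

/-- deterministic execution: with all coin strings of length `t` -/
def DS (t : ℕ) (a b : C) : Prop := ∀ w : List Bool, w.length = t → ex st w a = some b

variable {st}

theorem DS.zero (a : C) : DS st 0 a a := by
  intro w hw
  rw [List.length_eq_zero_iff.mp hw]
  rfl

theorem ex_append (w w' : List Bool) (c : C) : ex st (w ++ w') c = (ex st w c).bind (ex st w') := by
  induction w generalizing c with
  | nil => rfl
  | cons b w ih =>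
    change (st b c).bind (ex st (w ++ w')) = ((st b c).bind (ex st w)).bind (ex st w')
    cases h : st b c with
    | none => rfl
    | some c' =>
      simp only [Option.bind_some]
      exact ih c'

theorem DS.trans {m n : ℕ} {a b c : C} (h₁ : DS st m a b) (h₂ : DS st n b c) :
    DS st (m + n) a c := by
  intro w hw
  rw [← List.take_append_drop m w, ex_append, h₁ _ (by simp [hw]), Option.bind_some,
    h₂ _ (by simp [hw])]

theorem DS.one {a b : C} (h : ∀ x, st x a = some b) : DS st 1 a b := by
  intro w hw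
  obtain ⟨x, rfl⟩ := List.length_eq_one_iff.mp hw
  change (st x a).bind (ex st []) = _
  rw [h x]
  rfl

theorem DS.succ {t : ℕ} {a b : C} (h : DS st (t + 1) a b) (x : Bool) :
    ∃ c, st x a = some c ∧ DS st t c b := by
  cases hx : st x a with
  | none =>
    have := h (x :: List.replicate t false) (by simp)
    change (st x a).bind _ = _ at this
    rw [hx] at this
    simp at this
  | some c =>
    refine ⟨c, rfl, ?_⟩
    intro w hw
    have := h (x :: w) (by simp [hw])
    change (st x a).bind _ = _ at this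
    rw [hx] at this
    simpa using this

theorem half_add_half (x : ℝ≥0∞) : 2⁻¹ * x + 2⁻¹ * x = x := by
  rw [← add_mul, ENNReal.inv_two_add_inv_two, one_mul]

/-- a function which vanishes on the intermediate configurations -/
theorem DS.Ti_eq {φ : C → ℝ≥0∞} (hφ : ∀ c x, st x c ≠ none → φ c = 0) {t : ℕ} :
    ∀ {a b : C}, DS st t a b → Ti st φ a = Ti st φ b := by
  induction t with
  | zero =>
    intro a b h
    have := h [] rfl
    change some a = some b at this
    rw [Option.some.injEq] at this
    rw [this]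
  | succ t ih =>
    intro a b h
    obtain ⟨c, hc, hc'⟩ := h.succ false
    obtain ⟨d, hd, hd'⟩ := h.succ true
    rw [Ti_rec, hc, hd, hφ a false (by rw [hc]; simp), Option.elim_some, Option.elim_some,
      ih hc', ih hd', half_add_half, zero_add]

theorem DS.Tn_le {φ : C → ℝ≥0∞} (hφ : ∀ c, φ c ≤ 1) {t : ℕ} :
    ∀ {a b : C}, DS st t a b → ∀ n, Tn st φ n a ≤ t + Tn st φ n b := by
  induction t with
  | zero =>
    intro a b h n
    have := h [] rfl
    change some a = some b at this
    rw [Option.some.injEq] at this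
    rw [this]
    simp
  | succ t ih =>
    intro a b h n
    cases n with
    | zero => simp [Tn_zero]
    | succ n =>
      obtain ⟨c, hc, hc'⟩ := h.succ false
      obtain ⟨d, hd, hd'⟩ := h.succ true
      rw [Tn_succ, hc, hd, Option.elim_some, Option.elim_some]
      calc φ a + (2⁻¹ * Tn st φ n c + 2⁻¹ * Tn st φ n d)
          ≤ 1 + (2⁻¹ * (t + Tn st φ n b) + 2⁻¹ * (t + Tn st φ n b)) := by
            gcongr
            · exact hφ a
            · exact ih hc' n
            · exact ih hd' n
        _ = 1 + (t + Tn st φ n b) := by rw [half_add_half]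
        _ ≤ ((t + 1 : ℕ) : ℝ≥0∞) + Tn st φ (n + 1) b := by
            rw [← add_assoc]
            gcongr
            · push_cast; rw [add_comm]
            · exact Tn_mono st φ (Nat.le_succ n) b

end gen

end Pool.Agent.H73.ST
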