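import Pool.Agent.H73.ST.Gen
import Pool.Agent.NPC.Enc

/-!
# The probabilistic machine of a polynomial-time step function
-/

set_option autoImplicit false

namespace Pool.Agent.H73.ST

open Turing Pool.Agent.NPC
open scoped ENNReal
open Function (update)

/-! ### Compiled programs, with arbitrary coins -/

section Correct

variable {K : Type} [DecidableEq K] {L : Type}

theorem code_DS {c : Cmd K} {s s' : K → List Bool} {t : ℕ} (h : Run c s s' t) :
    ∀ (M : Bool → L → Cmd.Stm K L) (emb : c.Lbl → L) (exit : L),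
      (∀ x l, M x (emb l) = c.code emb exit l) →
      ∀ v, ∃ v', DS (fun x => TM2.step (M x)) t (⟨some (emb c.entry), v, s⟩ :
        TM2.Cfg (fun _ : K => Bool) L (Option Bool)) ⟨some exit, v', s'⟩ := by
  induction h with
  | skip s =>
    intro M emb exit hM v
    refine ⟨v, DS.one fun x => ?_⟩
    simp [TM2.step, hM, Cmd.code]
  | push s k b =>
    intro M emb exit hM v
    refine ⟨v, DS.one fun x => ?_⟩
    simp [TM2.step, hM, Cmd.code]
  | pop s k =>
    intro M emb exit hM v
    refine ⟨v, DS.one fun x => ?_⟩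
    simp [TM2.step, hM, Cmd.code]
  | @seq c d s s' s'' t t' _ _ ih₁ ih₂ =>
    intro M emb exit hM v
    obtain ⟨v₁, h₁⟩ := ih₁ M (fun x => emb (Sum.inl x)) (emb (Sum.inr d.entry))
      (fun x l => hM x (Sum.inl l)) v
    obtain ⟨v₂, h₂⟩ := ih₂ M (fun x => emb (Sum.inr x)) exit (fun x l => hM x (Sum.inr l)) v₁
    exact ⟨v₂, h₁.trans h₂⟩
  | @casesNil k c₀ cf ct s s' t hk _ ih =>
    intro M emb exit hM v
    obtain ⟨v₁, h₁⟩ := ih M (fun x => emb (some (Sum.inl x))) exit
      (fun x l => hM x (some (Sum.inl l))) none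
    refine ⟨v₁, ?_⟩
    rw [add_comm]
    refine DS.trans (DS.one fun x => ?_) h₁
    have : M x (emb none) = _ := hM x none
    simp [TM2.step, Cmd.entry, this, Cmd.code, hk]
  | @casesFalse k c₀ cf ct s s' t l hk _ ih =>
    intro M emb exit hM v
    obtain ⟨v₁, h₁⟩ := ih M (fun x => emb (some (Sum.inr (Sum.inl x)))) exit
      (fun x l => hM x (some (Sum.inr (Sum.inl l)))) (some false)
    refine ⟨v₁, ?_⟩
    rw [add_comm]
    refine DS.trans (DS.one fun x => ?_) h₁
    have : M x (emb none) = _ := hM x none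
    simp [TM2.step, Cmd.entry, this, Cmd.code, hk]
  | @casesTrue k c₀ cf ct s s' t l hk _ ih =>
    intro M emb exit hM v
    obtain ⟨v₁, h₁⟩ := ih M (fun x => emb (some (Sum.inr (Sum.inr x)))) exit
      (fun x l => hM x (some (Sum.inr (Sum.inr l)))) (some true)
    refine ⟨v₁, ?_⟩
    rw [add_comm]
    refine DS.trans (DS.one fun x => ?_) h₁
    have : M x (emb none) = _ := hM x none
    simp [TM2.step, Cmd.entry, this, Cmd.code, hk]
  | @loopNil k c s hk =>
    intro M emb exit hM v
    refine ⟨none, DS.one fun x => ?_⟩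
    have : M x (emb none) = _ := hM x none
    simp [TM2.step, Cmd.entry, this, Cmd.code, hk]
  | @loopCons k c s s' s'' t t' hk _ _ ih₁ ih₂ =>
    intro M emb exit hM v
    obtain ⟨b, l, hl⟩ := List.exists_cons_of_ne_nil hk
    obtain ⟨v₁, h₁⟩ := ih₁ M (fun x => emb (some x)) (emb none)
      (fun x l => hM x (some l)) (some b)
    obtain ⟨v₂, h₂⟩ := ih₂ M emb exit hM v₁
    refine ⟨v₂, ?_⟩
    have e : t + t' + 1 = 1 + (t + t') := by ring
    rw [e]
    refine DS.trans (DS.one fun x => ?_) (h₁.trans h₂)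
    have : M x (emb none) = _ := hM x none
    simp [TM2.step, Cmd.entry, this, Cmd.code, hl]

end Correct

/-! ### The programs -/

/-- push the code of the coin below the code of the pair -/
def pre : Bool → Cmd ℕ
  | false => Cmd.seq (Cmd.push 0 false) (Cmd.push 0 true)
  | true => Cmd.seq (Cmd.push 0 false) (Cmd.seq (Cmd.push 0 false)
      (Cmd.seq (Cmd.push 0 true) (Cmd.push 0 true)))

/-- read off the summand -/
def post : Cmd ℕ :=
  Cmd.seq (Cmd.pop 0) (Cmd.cases 0 Cmd.skip (Cmd.pop 0)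
    (Cmd.seq (Cmd.pop 0) (Cmd.seq (Cmd.pop 0) (Cmd.seq (Cmd.pop 0) (Cmd.pop 1)))))

/-- one round -/
def body (c : Cmd ℕ) (b : Bool) : Cmd ℕ := Cmd.seq (pre b) (Cmd.seq (ev c) post)

/-- the start program -/
def strt (c : Cmd ℕ) : Cmd ℕ := Cmd.seq (ev c) (Cmd.push 1 true)

variable {A σ β : Type} [TEnc A] [TEnc σ] [TEnc β]

theorem pre_runs (b : Bool) (s : σ) (o : List Bool) :
    Runs (pre b) (st (bits s) o []) (st (bits (b, s)) o []) 4 := by
  cases b
  · refine ((Runs.push _ 0 false).seq (Runs.push _ 0 true)).conv rfl ?_ (by norm_num)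
    simp [bits, toT, T.enc, T.ofBool]
  · refine ((Runs.push _ 0 false).seq ((Runs.push _ 0 false).seq ((Runs.push _ 0 true).seq
      (Runs.push _ 0 true)))).conv rfl ?_ (by norm_num)
    simp [bits, toT, T.enc, T.ofBool]

theorem post_runs (r : σ ⊕ β) :
    Runs post (st (bits r) [true] [])
      (Sum.elim (fun s' => st (bits s') [true] []) (fun y => st (bits y) [] []) r) 8 := by
  rcases r with s | y
  · refine ((Runs.pop _ 0).seq (Runs.casesFalse (l := bits s) ?_ (Runs.pop _ 0))).conv rfl ?_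
      (by norm_num)
    · simp [bits, toT, T.enc, T.ofSum]
    · simp [bits, toT, T.enc, T.ofSum]
  · refine ((Runs.pop _ 0).seq (Runs.casesTrue (l := false :: false :: bits y) ?_
      ((Runs.pop _ 0).seq ((Runs.pop _ 0).seq ((Runs.pop _ 0).seq (Runs.pop _ 1)))))).conv rfl ?_
      (by norm_num)
    · simp [bits, toT, T.enc, T.ofSum]
    · simp [bits, toT, T.enc, T.ofSum]

theorem body_runs {H : Bool × σ → σ ⊕ β} {c : Cmd ℕ} {p : Polynomial ℕ}
    (hc : ∀ a, Runs c (inp (bits a)) (inp (bits (H a))) (p.eval (bits a).length)) (b : Bool) (s : σ) :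
    Runs (body c b) (st (bits s) [true] [])
      (Sum.elim (fun s' => st (bits s') [true] []) (fun y => st (bits y) [] []) (H (b, s)))
      (p.eval (bits (b, s)).length + 12) := by
  refine ((pre_runs b s [true]).seq ((ev_runs (hc (b, s)) [true]).seq (post_runs (H (b, s))))).mono ?_
  omega

theorem strt_runs {ι : A → σ} {c : Cmd ℕ} {p : Polynomial ℕ}
    (hc : ∀ a, Runs c (inp (bits a)) (inp (bits (ι a))) (p.eval (bits a).length)) (a : A) :
    Runs (strt c) (st (bits a) [] []) (st (bits (ι a)) [true] []) (p.eval (bits a).length + 1) := by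
  refine ((ev_runs (hc a) []).seq (Runs.push _ 1 true)).conv rfl ?_ le_rfl
  simp

/-! ### The machine -/

section Machine

variable (n : ℕ) (B0 B1 B2 : Cmd ℕ)

/-- a program on the stacks `Fin (n + 1)` -/
abbrev fm (n : ℕ) (B : Cmd ℕ) : Cmd (Fin (n + 1)) := B.map (Fin.ofNat (n + 1))

/-- the labels: test, flip, final, and those of the three programs -/
abbrev Lab : Type := Fin 3 ⊕ ((fm n B2).Lbl ⊕ ((fm n B0).Lbl ⊕ (fm n B1).Lbl))

/-- the programs of the machine -/
def mprog (x : Bool) : Lab n B0 B1 B2 → Cmd.Stm (Fin (n + 1)) (Lab n B0 B1 B2)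
  | Sum.inl i =>
    if i = 0 then
      TM2.Stmt.peek 1 (fun _ a => a) (TM2.Stmt.goto fun v => match v with
        | none => Sum.inl 2
        | some _ => Sum.inl 1)
    else if i = 1 then
      TM2.Stmt.load (fun _ => none) (TM2.Stmt.goto fun _ =>
        if x then Sum.inr (Sum.inr (Sum.inr (fm n B1).entry))
        else Sum.inr (Sum.inr (Sum.inl (fm n B0).entry)))
    else TM2.Stmt.load (fun _ => none) TM2.Stmt.halt
  | Sum.inr (Sum.inl l) =>
    (fm n B2).code (fun l => Sum.inr (Sum.inl l)) (Sum.inl 0) l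
  | Sum.inr (Sum.inr (Sum.inl l)) =>
    (fm n B0).code (fun l => Sum.inr (Sum.inr (Sum.inl l))) (Sum.inl 0) l
  | Sum.inr (Sum.inr (Sum.inr l)) =>
    (fm n B1).code (fun l => Sum.inr (Sum.inr (Sum.inr l))) (Sum.inl 0) l

/-- the machine -/
def mach : PTM where
  tm :=
    { K := Fin (n + 1)
      k₀ := 0
      k₁ := 0
      Γ := fun _ => Bool
      Λ := Lab n B0 B1 B2
      main := Sum.inr (Sum.inl (fm n B2).entry)
      σ := Option Bool
      initialState := none
      Γk₀Fin := inferInstanceAs (Fintype Bool)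
      m := mprog n B0 B1 B2 false }
  m' := mprog n B0 B1 B2 true
  inA := Equiv.refl Bool
  outA := Equiv.refl Bool

/-- configurations -/
abbrev MCfg : Type := TM2.Cfg (fun _ : Fin (n + 1) => Bool) (Lab n B0 B1 B2) (Option Bool)

/-- the step function with coins -/
def mst (x : Bool) : MCfg n B0 B1 B2 → Option (MCfg n B0 B1 B2) := TM2.step (mprog n B0 B1 B2 x)

/-- stacks -/
def stF (a b c : List Bool) : Fin (n + 1) → List Bool := fun i => st a b c i

/-- the configuration before a coin is flipped -/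
def rc (a : List Bool) : MCfg n B0 B1 B2 := ⟨some (Sum.inl 1), some true, stF n a [true] []⟩

/-- the halting configuration -/
def hc (a : List Bool) : MCfg n B0 B1 B2 := ⟨none, none, stF n a [] []⟩

theorem fm_DS {B : Cmd ℕ} (hB : B.bd ≤ n + 1) {s s' : ℕ → List Bool} {t : ℕ} (h : Runs B s s' t)
    (emb : (fm n B).Lbl → Lab n B0 B1 B2)
    (hM : ∀ x l, mprog n B0 B1 B2 x (emb l) = (fm n B).code emb (Sum.inl 0) l) (v : Option Bool) :
    ∃ v', ∃ t' ≤ t, DS (mst n B0 B1 B2) t' ⟨some (emb (fm n B).entry), v, fun i => s i⟩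
      ⟨some (Sum.inl 0), v', fun i => s' i⟩ := by
  obtain ⟨t', ht', hr⟩ := h
  obtain ⟨v', hv'⟩ := code_DS (hr.restrict (n := n) hB) (mprog n B0 B1 B2) emb (Sum.inl 0) hM v
  exact ⟨v', t', ht', hv'⟩


theorem test_cont (a : List Bool) (v : Option Bool) :
    DS (mst (n + 1) B0 B1 B2) 1 ⟨some (Sum.inl 0), v, stF (n + 1) a [true] []⟩
      (rc (n + 1) B0 B1 B2 a) := by
  refine DS.one fun x => ?_
  have h1 : stF (n + 1) a [true] [] 1 = [true] := rfl
  simp [mst, TM2.step, mprog, h1, rc]

theorem test_halt (a : List Bool) (v : Option Bool) :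
    DS (mst (n + 1) B0 B1 B2) 2 ⟨some (Sum.inl 0), v, stF (n + 1) a [] []⟩
      (hc (n + 1) B0 B1 B2 a) := by
  refine DS.trans (m := 1) (n := 1) (b := ⟨some (Sum.inl 2), none, stF (n + 1) a [] []⟩)
    (DS.one fun x => ?_) (DS.one fun x => ?_)
  · have h1 : stF (n + 1) a [] [] 1 = [] := rfl
    simp [mst, TM2.step, mprog, h1]
  · simp [mst, TM2.step, mprog, hc]

theorem flip_step (a : List Bool) (x : Bool) :
    mst n B0 B1 B2 x (rc n B0 B1 B2 a) = some ⟨some (if x then
      Sum.inr (Sum.inr (Sum.inr (fm n B1).entry)) else Sum.inr (Sum.inr (Sum.inl (fm n B0).entry))),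
      none, stF n a [true] []⟩ := by
  cases x <;> simp [mst, TM2.step, mprog, rc]

end Machine

section Main

variable {H : Bool × σ → σ ⊕ β} {c : Cmd ℕ} {p : Polynomial ℕ} {ι : A → σ} {c' : Cmd ℕ}
  {p' : Polynomial ℕ}

/-- the configuration for the result of a round -/
def nx (n : ℕ) (B0 B1 B2 : Cmd ℕ) (r : σ ⊕ β) : MCfg n B0 B1 B2 :=
  Sum.elim (fun s' => rc n B0 B1 B2 (bits s')) (fun y => hc n B0 B1 B2 (bits y)) r

theorem round_DS (hc' : ∀ a, Runs c (inp (bits a)) (inp (bits (H a))) (p.eval (bits a).length))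
    {n : ℕ} (h0 : (body c false).bd ≤ n + 2) (h1 : (body c true).bd ≤ n + 2) (B2 : Cmd ℕ) (b : Bool)
    (s : σ) :
    ∃ d, mst (n + 1) (body c false) (body c true) B2 b
        (rc (n + 1) (body c false) (body c true) B2 (bits s)) = some d ∧
      ∃ t ≤ p.eval (bits (b, s)).length + 14, DS (mst (n + 1) (body c false) (body c true) B2) t d
        (nx (n + 1) (body c false) (body c true) B2 (H (b, s))) := by
  have hr := body_runs hc' b s
  have key : ∃ d, mst (n + 1) (body c false) (body c true) B2 b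
        (rc (n + 1) (body c false) (body c true) B2 (bits s)) = some d ∧
      ∃ v', ∃ t ≤ p.eval (bits (b, s)).length + 12,
        DS (mst (n + 1) (body c false) (body c true) B2) t d
        ⟨some (Sum.inl 0), v', fun i : Fin (n + 2) => Sum.elim (fun s' => st (bits s') [true] [])
          (fun y => st (bits y) [] []) (H (b, s)) i⟩ := by
    cases b
    · obtain ⟨v', t, ht, hd⟩ := fm_DS (n + 1) (body c false) (body c true) B2 h0 hr
        (fun l => Sum.inr (Sum.inr (Sum.inl l))) (fun x l => rfl) none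
      exact ⟨_, by rw [flip_step]; rfl, v', t, ht, hd⟩
    · obtain ⟨v', t, ht, hd⟩ := fm_DS (n + 1) (body c false) (body c true) B2 h1 hr
        (fun l => Sum.inr (Sum.inr (Sum.inr l))) (fun x l => rfl) none
      exact ⟨_, by rw [flip_step]; rfl, v', t, ht, hd⟩
  obtain ⟨d, hd, v', t, ht, hD⟩ := key
  refine ⟨d, hd, ?_⟩
  rcases hH : H (b, s) with s' | y
  · rw [hH] at hD
    exact ⟨t + 1, by omega, hD.trans (test_cont n _ _ B2 (bits s') v')⟩
  · rw [hH] at hD
    exact ⟨t + 2, by omega, hD.trans (test_halt n _ _ B2 (bits y) v')⟩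

theorem start_DS (hc' : ∀ a, Runs c' (inp (bits a)) (inp (bits (ι a))) (p'.eval (bits a).length))
    {n : ℕ} (B0 B1 : Cmd ℕ) (h2 : (strt c').bd ≤ n + 2) (a : A) :
    ∃ t ≤ p'.eval (bits a).length + 2, DS (mst (n + 1) B0 B1 (strt c')) t
      ⟨some (Sum.inr (Sum.inl (fm (n + 1) (strt c')).entry)), none, stF (n + 1) (bits a) [] []⟩
      (rc (n + 1) B0 B1 (strt c') (bits (ι a))) := by
  have hr := strt_runs hc' a
  obtain ⟨v', t, ht, hd⟩ := fm_DS (n + 1) B0 B1 (strt c') h2 hr
    (fun l => Sum.inr (Sum.inl l)) (fun x l => rfl) none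
  exact ⟨t + 1, by omega, DS.trans hd (test_cont n B0 B1 (strt c') (bits (ι a)) v')⟩

end Main

end Pool.Agent.H73.ST
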