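import Mathlib

/-!
# Probabilistic Turing machines

A probabilistic Turing machine is a multi-stack machine of Mathlib (`Turing.FinTM2`) with two
programs; at each step a fair coin decides which of them is used. Output probabilities and expected
running time are sums over finite coin strings.
-/

set_option autoImplicit false

namespace Pool.Agent.H73.ST

open Turing
open scoped ENNReal

/-- A probabilistic Turing machine: a multi-stack machine of Mathlib with a second program `m'`,
and identifications of the alphabets of the input stack and of the output stack with `Bool`. -/
structure PTM where
  /-- the machine, with its first program `tm.m` -/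
  tm : FinTM2
  /-- the second program -/
  m' : tm.Λ → tm.Stmt
  /-- the input alphabet is `Bool` -/
  inA : tm.Γ tm.k₀ ≃ Bool
  /-- the output alphabet is `Bool` -/
  outA : tm.Γ tm.k₁ ≃ Bool

namespace PTM

variable (M : PTM)

/-- One step, where `b` is the outcome of the coin: the first program is used for `b = false`, the
second one for `b = true`. The value is `none` if the machine has halted before. -/
def step (b : Bool) : M.tm.Cfg → Option M.tm.Cfg := TM2.step (if b then M.m' else M.tm.m)

/-- The configuration reached from `c` after `w.length` steps with the coins `w` (`none` if the
machine halts after fewer steps). -/
def exec : List Bool → M.tm.Cfg → Option M.tm.Cfg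
  | [], c => some c
  | b :: w, c => (M.step b c).bind (exec w)

/-- The initial configuration for the input `x`. -/
def init (x : List Bool) : M.tm.Cfg := initList M.tm (x.map M.inA.symm)

/-- On input `x` with coins `w` the machine halts after exactly `w.length` steps with output `y`. -/
def Outputs (x w y : List Bool) : Prop :=
  M.exec w (M.init x) = some (haltList M.tm (y.map M.outA.symm))

/-- On input `x` with coins `w` the machine has not halted after `w.length` steps. -/
def Runs (x w : List Bool) : Prop := ∃ c, M.exec w (M.init x) = some c ∧ c.l ≠ none

/-- The probability that the machine halts on input `x` with output `y`: the sum of `2 ^ (-|w|)` over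
all coin strings `w` with which it halts after exactly `|w|` steps with output `y`. -/
noncomputable def prob (x y : List Bool) : ℝ≥0∞ :=
  ∑' w : {w : List Bool // M.Outputs x w y}, (2⁻¹ : ℝ≥0∞) ^ w.1.length

/-- The expected running time on input `x`: the sum over `t ≥ 0` of the probability that the machine
has not halted after `t` steps, that is, the sum of `2 ^ (-|w|)` over all coin strings `w` with which
it has not halted after `|w|` steps. -/
noncomputable def expTime (x : List Bool) : ℝ≥0∞ :=
  ∑' w : {w : List Bool // M.Runs x w}, (2⁻¹ : ℝ≥0∞) ^ w.1.length

end PTM

end Pool.Agent.H73.ST
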