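import Pool.Agent.H73.ST.Defs

/-!
# Spanning trees as subcomplexes
-/

set_option autoImplicit false

namespace Pool.Agent.H73.ST

/-- The faces of top dimension `d` of the complex `F` which belong to the list `U`. -/
def tops (F U : List (List ℕ)) : Set (List ℕ) := {τ | τ ∈ U ∧ τ.length = maxLen F}

/-- `U` is the list of all faces (in the order of `F`) of a spanning tree of the complex `F`: the
subcomplex `U` contains all faces of dimension less than `d`, and the boundaries of its
`d`-dimensional faces form a basis of the space spanned by the boundaries of all `d`-dimensional
faces of `F`. -/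
structure IsSpanningTree (F U : List (List ℕ)) : Prop where
  sub : U.Sublist F
  skel : ∀ σ ∈ F, σ.length < maxLen F → σ ∈ U
  indep : LinearIndepOn ℚ bd (tops F U)
  span : ∀ σ ∈ tops F F, bd σ ∈ Submodule.span ℚ (bd '' tops F U)

end Pool.Agent.H73.ST
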