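import Pool.Agent.H73.ST.Count

/-!
# The table of the dynamic program and the search
-/

set_option autoImplicit false

namespace Pool.Agent.H73.ST

open Pool.Agent Pool.Agent.NPC Finset

variable {N : ℕ} {I : List Bool → Bool}

theorem sum_list_range {R : Type} [AddCommMonoid R] (n : ℕ) (f : ℕ → R) :
    ((List.range n).map f).sum = ∑ v ∈ range n, f v := by
  induction n with
  | zero => simp
  | succ n ih => rw [List.range_succ, List.map_append, List.sum_append, ih, sum_range_succ]; simp

theorem look_map (c : List Bool → ℕ) (z : List Bool) : ∀ L : List (List Bool), z ∈ L →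
    look (L.map fun y => (y, c y)) z = c z := by
  intro L
  induction L with
  | nil => intro h; simp at h
  | cons y L ih =>
    intro h
    by_cases hy : y = z
    · subst hy
      simp [look]
    · have hz : z ∈ L := by
        rcases List.mem_cons.1 h with h1 | h1
        · exact absurd h1.symm hy
        · exact h1
      have := ih hz
      unfold look at this ⊢
      rw [List.map_cons, List.filter_cons_of_neg (by simpa using hy)]
      exact this

theorem dstep_map (L : List (List Bool)) (c : List Bool → ℕ)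
    (hL : ∀ y ∈ L, ∀ v, mov N (2 ^ m0 N) I v y ∈ L) :
    dstep N I (L.map fun y => (y, c y)) = L.map fun y =>
      (y, ∑ v ∈ range (2 ^ (2 * m0 N)), c (mov N (2 ^ m0 N) I v y)) := by
  unfold dstep
  rw [List.map_map]
  apply List.map_congr_left
  intro y hy
  simp only [Function.comp_apply]
  rw [sum_list_range]
  congr 1
  refine Finset.sum_congr rfl fun v _ => ?_
  exact look_map c _ L (hL y hy v)

theorem mem_bss {y : List Bool} : y ∈ bss N I (allM N) ↔ y ∈ Bs N I := by
  unfold Bs
  rw [List.mem_toFinset]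

theorem tab_eq (s : ℕ) : tab N s I (allM N) =
    (bss N I (allM N)).map fun y => (y, CC N I (2 * tt N s) (grd N I) y) := by
  have key : ∀ k : ℕ, (dstep N I)^[k] ((bss N I (allM N)).map fun y =>
      (y, if y = grd N I then 1 else 0)) =
      (bss N I (allM N)).map fun y => (y, CC N I k (grd N I) y) := by
    intro k
    induction k with
    | zero => rfl
    | succ k ih =>
      rw [Function.iterate_succ_apply', ih, dstep_map]
      · rfl
      · intro y hy v
        rw [mem_bss] at hy ⊢
        exact mov_mem _ v hy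
  exact key _

/-! ### The search -/

theorem srch_nil (w : ℕ → ℕ) (U : ℕ) : srch w [] U = none := rfl

theorem foldl_some (w : ℕ → ℕ) (Z : List (List Bool × ℕ)) (U : ℕ) (y : List Bool) :
    (Z.foldl (fun (acc : ℕ × Option (List Bool)) p =>
      if acc.2.isSome = true then acc
      else if acc.1 < w p.2 then (acc.1, some p.1) else (acc.1 - w p.2, none)) (U, some y)) =
      (U, some y) := by
  induction Z with
  | nil => rfl
  | cons p Z ih =>
    rw [List.foldl_cons]
    simpa using ih

theorem srch_cons (w : ℕ → ℕ) (p : List Bool × ℕ) (Z : List (List Bool × ℕ)) (U : ℕ) :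
    srch w (p :: Z) U = if U < w p.2 then some p.1 else srch w Z (U - w p.2) := by
  unfold srch
  rw [List.foldl_cons]
  simp only [Option.isSome_none, Bool.false_eq_true, if_false]
  split_ifs with h
  · rw [foldl_some]
  · rfl

theorem sum_srch {R : Type} [AddCommMonoid R] (w : ℕ → ℕ) (F : Option (List Bool) → R) :
    ∀ (Z : List (List Bool × ℕ)) (T : ℕ), (Z.map fun p => w p.2).sum ≤ T →
      ∑ U ∈ range T, F (srch w Z U) =
        (Z.map fun p => w p.2 • F (some p.1)).sum + (T - (Z.map fun p => w p.2).sum) • F none := by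
  intro Z
  induction Z with
  | nil =>
    intro T _
    simp [srch_nil]
  | cons p Z ih =>
    intro T hT
    rw [List.map_cons, List.sum_cons] at hT
    obtain ⟨T', rfl⟩ : ∃ T', T = w p.2 + T' := ⟨T - w p.2, by omega⟩
    rw [sum_range_add, List.map_cons, List.sum_cons, List.map_cons, List.sum_cons]
    have e1 : ∑ U ∈ range (w p.2), F (srch w (p :: Z) U) = w p.2 • F (some p.1) := by
      rw [Finset.sum_congr rfl fun U hU => by rw [srch_cons, if_pos (mem_range.1 hU)]]
      rw [sum_const, card_range]
    have e2 : ∀ U, F (srch w (p :: Z) (w p.2 + U)) = F (srch w Z U) := by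
      intro U
      rw [srch_cons, if_neg (by omega)]
      congr 2
      omega
    rw [e1, Finset.sum_congr rfl fun U _ => e2 U, ih T' (by omega), add_assoc]
    congr 3
    omega

/-- the weight of a basis -/
def wt (N s : ℕ) (I : List Bool → Bool) (y : List Bool) : ℕ :=
  2 ^ (mm N s + s) / (Bs N I).card - (2 ^ s - 1) * CC N I (2 * tt N s) (grd N I) y

theorem sum_list_bss {R : Type} [AddCommMonoid R] (f : List Bool → R) :
    ((bss N I (allM N)).map f).sum = ∑ y ∈ Bs N I, f y := by
  unfold Bs
  rw [List.sum_toFinset _ (nodup_bss N I)]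

theorem sum_wt (hp : S_POIN) (h : IndSys N I) (s : ℕ) :
    ∑ y ∈ Bs N I, wt N s I y + (2 ^ s - 1) * 2 ^ mm N s =
      (Bs N I).card * (2 ^ (mm N s + s) / (Bs N I).card) := by
  have h1 : ∀ y ∈ Bs N I, wt N s I y + (2 ^ s - 1) * CC N I (2 * tt N s) (grd N I) y =
      2 ^ (mm N s + s) / (Bs N I).card := fun y hy =>
    Nat.sub_add_cancel (weight_ok hp h (grd_mem h) hy s)
  have h2 := Finset.sum_congr rfl h1
  rw [Finset.sum_add_distrib, ← Finset.mul_sum, CC_total _ (grd_mem h), ← two_pow_mm,
    Finset.sum_const, smul_eq_mul] at h2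
  exact h2

theorem sum_wt_le (hp : S_POIN) (h : IndSys N I) (s : ℕ) :
    ∑ y ∈ Bs N I, wt N s I y ≤ 2 ^ mm N s := by
  have h1 := sum_wt hp h s
  have h2 : (Bs N I).card * (2 ^ (mm N s + s) / (Bs N I).card) ≤ 2 ^ (mm N s + s) :=
    Nat.mul_div_le _ _
  have h3 : 2 ^ (mm N s + s) = (2 ^ s - 1) * 2 ^ mm N s + 2 ^ mm N s := by
    have : 1 ≤ 2 ^ s := Nat.one_le_two_pow
    obtain ⟨c, hc⟩ : ∃ c, 2 ^ s = c + 1 := ⟨2 ^ s - 1, by omega⟩
    rw [pow_add, hc, Nat.add_sub_cancel]
    ring
  omega

theorem sum_pick {R : Type} [AddCommMonoid R] (hp : S_POIN) (h : IndSys N I) (s : ℕ)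
    (F : Option (List Bool) → R) :
    ∑ U ∈ range (2 ^ mm N s), F (pick N s I (allM N) U) =
      ∑ y ∈ Bs N I, wt N s I y • F (some y) +
        (2 ^ mm N s - ∑ y ∈ Bs N I, wt N s I y) • F none := by
  have e : ∀ y : List Bool, 2 ^ (mm N s + s) / (bss N I (allM N)).length -
      (2 ^ s - 1) * CC N I (2 * tt N s) (grd N I) y = wt N s I y := by
    intro y
    unfold wt
    rw [card_Bs]
  have h1 : (((bss N I (allM N)).map fun y => (y, CC N I (2 * tt N s) (grd N I) y)).map
      fun p => (2 ^ (mm N s + s) / (bss N I (allM N)).length - (2 ^ s - 1) * p.2)).sum =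
      ∑ y ∈ Bs N I, wt N s I y := by
    rw [List.map_map, ← sum_list_bss]
    congr 1
    apply List.map_congr_left
    intro y _
    exact e y
  unfold pick
  rw [tab_eq]
  rw [sum_srch (fun c => 2 ^ (mm N s + s) / (bss N I (allM N)).length - (2 ^ s - 1) * c) F _
    (2 ^ mm N s) (by rw [h1]; exact sum_wt_le hp h s)]
  rw [h1]
  congr 1
  rw [List.map_map, ← sum_list_bss]
  congr 1
  apply List.map_congr_left
  intro y _
  change (2 ^ (mm N s + s) / (bss N I (allM N)).length -
      (2 ^ s - 1) * CC N I (2 * tt N s) (grd N I) y) • F (some y) = _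
  rw [e y]

end Pool.Agent.H73.ST
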