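import Mathlib

/-!
# Statement of the mixing part of the exact sampler for simplicial spanning trees (MP_d8fb5e_lc)
-/

set_option autoImplicit false

namespace Pool.Agent.H73.ST

open Finset

/-- Part MIX: mixing of a symmetric walk given by involutions `σ v`, `v < b`, at least half of which
are trivial on `S`. `C k y` counts the sequences of `k` indices which lead from `x0` to `y`. -/
def S_MIX : Prop :=
  ∀ (α : Type) (_ : DecidableEq α) (S : Finset α) (b : ℕ) (σ : ℕ → α → α), 0 < b →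
    (∀ v < b, ∀ y ∈ S, σ v y ∈ S ∧ σ v (σ v y) = y) →
    (∃ V : Finset ℕ, 2 * V.card ≤ b ∧ ∀ v < b, v ∉ V → ∀ y ∈ S, σ v y = y) →
    (∀ f : α → ℝ, ∑ y ∈ S, f y = 0 →
      4 * ∑ y ∈ S, f y ^ 2 ≤ ∑ y ∈ S, ∑ v ∈ range b, (f (σ v y) - f y) ^ 2) →
    ∀ x0 ∈ S, ∀ C : ℕ → α → ℕ, (∀ y ∈ S, C 0 y = if y = x0 then 1 else 0) →
      (∀ k, ∀ y ∈ S, C (k + 1) y = ∑ v ∈ range b, C k (σ v y)) →
      ∀ t : ℕ, ∀ y ∈ S, (C (2 * t) y : ℝ) / (b : ℝ) ^ (2 * t) ≤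
        1 / (S.card : ℝ) + (1 - 2 / (b : ℝ)) ^ t

end Pool.Agent.H73.ST
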