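import Pool.Agent.H73.ST.Algo
import Pool.Agent.H73.ST.Defs

/-!
# Statements of the remaining parts of the exact sampler (MP_d8fb5e_lc)
-/

set_option autoImplicit false

namespace Pool.Agent.H73.ST

open Pool.Agent Pool.Agent.NPC

/-- an independence system on masks of length `N` with the augmentation property (a matroid) -/
structure IndSys (N : ℕ) (I : List Bool → Bool) : Prop where
  empty : I ((List.range N).map fun _ => false) = true
  hered : ∀ y z : List Bool, y.length = N → z.length = N →
    (∀ i, z.getD i false = true → y.getD i false = true) → I y = true → I z = true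
  aug : ∀ y z : List Bool, y.length = N → z.length = N → I y = true → I z = true →
    cntT y < cntT z →
    ∃ i < N, y.getD i false = false ∧ z.getD i false = true ∧ I (setT N i y) = true

/-- the bases: independent masks of maximal cardinality -/
def IsBase (N : ℕ) (I : List Bool → Bool) (y : List Bool) : Prop :=
  y.length = N ∧ I y = true ∧ ∀ z : List Bool, z.length = N → I z = true → cntT z ≤ cntT y

/-- the selection of the elements of `T` with the mask `y` -/
def sel {γ : Type} (T : List γ) (y : List Bool) : List γ :=
  ((T.zip y).filter fun p => p.2).map fun p => p.1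

/-- the code (`0`, `1`, `2` for `0`, `1`, `-1`) of the coefficient of `τ` in the boundary of `σ` -/
def code (σ τ : List ℕ) : ℕ :=
  (((σ.zipIdx.filter fun p => decide ((σ.filter fun w => decide (w ≠ p.1)) = τ)).map fun p =>
    1 + p.2 % 2).head?).getD 0

/-- the row of a face: its boundary, with the faces of the complex as coordinates -/
def row (F : List (List ℕ)) (σ : List ℕ) : List ℕ := F.map (code σ)

/-- independence of the boundaries of the top-dimensional faces with the given mask -/
def indF (t : List (List ℕ) → Bool) (q : List (List ℕ) × List Bool) : Bool :=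
  t ((sel (tp q.1) q.2).map (row q.1))

/-- the integers `0`, `1`, `-1` coded by `0`, `1`, `2` (as in `Stm.lean`) -/
def dv' (e : ℕ) : ℤ := if e = 1 then 1 else if e = 2 then -1 else 0

/-- `t` decides linear independence over `ℚ` -/
def IndSpec (t : List (List ℕ) → Bool) : Prop :=
  ∀ (n : ℕ) (vs : List (List ℕ)), (∀ v ∈ vs, v.length = n) →
    (t vs = true ↔ LinearIndependent ℚ
      (fun i : Fin vs.length => fun j : Fin n => ((dv' ((vs.get i).getD j 0) : ℤ) : ℚ)))

/-- Part TREE: the matroid of a complex. -/
def S_TREE : Prop :=
  ∀ t, IndSpec t → ∀ F : List (List ℕ), IsComplex F →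
    IndSys (tp F).length (fun y => indF t (F, y)) ∧
    (∀ S, IsTree F S ↔
      ∃ y, IsBase (tp F).length (fun y => indF t (F, y)) y ∧ S = sel (tp F) y) ∧
    (∀ y z : List Bool, y.length = (tp F).length → z.length = (tp F).length →
      sel (tp F) y = sel (tp F) z → y = z)

/-- Part TREEP: the functions of the complex are computable in polynomial time; the size of the
input is polynomial in the number of faces. -/
def S_TREEP : Prop :=
  (∀ t : List (List ℕ) → Bool, NPC.Poly t → NPC.Poly (indF t)) ∧
  UPoly (fun F : List (List ℕ) => (tp F).length) ∧
  NPC.Poly (fun q : List (List ℕ) × List Bool => sel (tp q.1) q.2) ∧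
  ∃ p : Polynomial ℕ, ∀ F : List (List ℕ), IsComplex F → sz F ≤ p.eval F.length

end Pool.Agent.H73.ST
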