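import Pool.Agent.H73.ST.Stm3

/-!
# The exchange walk on the bases: masks, moves, counting of walks
-/

set_option autoImplicit false

namespace Pool.Agent.H73.ST

open Pool.Agent Pool.Agent.NPC Finset

/-! ### Masks -/

/-- all masks of length `k` -/
def allM : ℕ → List (List Bool)
  | 0 => [[]]
  | k + 1 => ((allM k).map fun y => false :: y) ++ ((allM k).map fun y => true :: y)

theorem mem_allM (k : ℕ) : ∀ y : List Bool, y ∈ allM k ↔ y.length = k := by
  induction k with
  | zero => intro y; simp [allM, List.length_eq_zero_iff]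
  | succ k ih =>
    intro y
    cases y with
    | nil => simp [allM]
    | cons b y => cases b <;> simp [allM, ih]

theorem nodup_allM (k : ℕ) : (allM k).Nodup := by
  induction k with
  | zero => simp [allM]
  | succ k ih =>
    refine List.Nodup.append ?_ ?_ ?_
    · exact ih.map (fun a b h => (List.cons.inj h).2)
    · exact ih.map (fun a b h => (List.cons.inj h).2)
    · intro y h1 h2
      simp only [List.mem_map] at h1 h2
      obtain ⟨a, _, rfl⟩ := h1
      obtain ⟨b, _, h⟩ := h2
      simp at h

theorem length_allM (k : ℕ) : (allM k).length = 2 ^ k := by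
  induction k with
  | zero => rfl
  | succ k ih => simp [allM, ih, pow_succ, mul_two]

theorem mask_ext {N : ℕ} {y z : List Bool} (hy : y.length = N) (hz : z.length = N)
    (h : ∀ i < N, y.getD i false = z.getD i false) : y = z := by
  apply List.ext_getElem (by rw [hy, hz])
  intro i h1 h2
  have := h i (by omega)
  rwa [List.getD_eq_getElem _ _ h1, List.getD_eq_getElem _ _ h2] at this

/-- the mask of a function -/
def mk (N : ℕ) (f : ℕ → Bool) : List Bool := (List.range N).map f

@[simp] theorem length_mk (N : ℕ) (f : ℕ → Bool) : (mk N f).length = N := by simp [mk]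

theorem getD_mk {N i : ℕ} (f : ℕ → Bool) (hi : i < N) : (mk N f).getD i false = f i := by
  rw [List.getD_eq_getElem _ _ (by simpa using hi)]
  simp [mk]

theorem getD_mk' {N i : ℕ} (f : ℕ → Bool) : (mk N f).getD i false = (decide (i < N) && f i) := by
  by_cases hi : i < N
  · rw [getD_mk f hi]; simp [hi]
  · rw [List.getD_eq_default _ _ (by simpa using hi)]
    simp [hi]

theorem mk_getD {N : ℕ} {y : List Bool} (hy : y.length = N) : mk N (fun i => y.getD i false) = y :=
  mask_ext (length_mk _ _) hy fun i hi => getD_mk _ hi

theorem setT_eq (N k : ℕ) (y : List Bool) :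
    setT N k y = mk N (fun i => if i = k then true else y.getD i false) := rfl

theorem swp_eq (N i j : ℕ) (y : List Bool) :
    swp N i j y = mk N (fun k => y.getD (if k = i then j else if k = j then i else k) false) := rfl

theorem length_setT (N k : ℕ) (y : List Bool) : (setT N k y).length = N := by simp [setT]
theorem length_swp (N i j : ℕ) (y : List Bool) : (swp N i j y).length = N := by simp [swp]

/-- the finite set of a mask -/
def fs (N : ℕ) (y : List Bool) : Finset ℕ := (range N).filter fun i => y.getD i false = true

theorem mem_fs {N : ℕ} {y : List Bool} {i : ℕ} : i ∈ fs N y ↔ i < N ∧ y.getD i false = true := by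
  simp [fs]

theorem cntT_eq {y : List Bool} : ∀ {N : ℕ}, y.length = N → cntT y = (fs N y).card := by
  induction y with
  | nil =>
    intro N h
    simp only [List.length_nil] at h
    subst h
    rfl
  | cons b y ih =>
    intro N h
    obtain ⟨n, rfl⟩ : ∃ n, N = n + 1 := ⟨y.length, by simpa using h.symm⟩
    have hy : y.length = n := by simpa using h
    have e : fs (n + 1) (b :: y) = (if b = true then {0} else ∅) ∪ (fs n y).image (· + 1) := by
      ext i
      rw [mem_fs, Finset.mem_union, Finset.mem_image]
      cases i with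
      | zero =>
        cases b <;> simp
      | succ i =>
        cases b <;> simp [mem_fs]
    have hd : Disjoint (if b = true then ({0} : Finset ℕ) else ∅) ((fs n y).image (· + 1)) := by
      rw [Finset.disjoint_left]
      intro i h1 h2
      rw [Finset.mem_image] at h2
      obtain ⟨a, _, rfl⟩ := h2
      cases b <;> simp at h1
    rw [e, Finset.card_union_of_disjoint hd, Finset.card_image_of_injective _ (fun a b h => by simpa using h),
      ← ih hy]
    cases b <;> simp [cntT] <;> omega

theorem fs_mk (N : ℕ) (f : ℕ → Bool) : fs N (mk N f) = (range N).filter fun i => f i = true := by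
  ext i
  rw [mem_fs, Finset.mem_filter, Finset.mem_range]
  constructor
  · rintro ⟨h1, h2⟩
    rw [getD_mk f h1] at h2
    exact ⟨h1, h2⟩
  · rintro ⟨h1, h2⟩
    exact ⟨h1, by rw [getD_mk f h1]; exact h2⟩

theorem fs_inj {N : ℕ} {y z : List Bool} (hy : y.length = N) (hz : z.length = N)
    (h : fs N y = fs N z) : y = z := by
  apply mask_ext hy hz
  intro i hi
  have h1 : i ∈ fs N y ↔ i ∈ fs N z := by rw [h]
  rw [mem_fs, mem_fs] at h1
  cases h2 : y.getD i false <;> cases h3 : z.getD i false <;> simp_all

theorem swp_swp {N i j : ℕ} {y : List Bool} (hi : i < N) (hj : j < N) (hy : y.length = N) :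
    swp N i j (swp N i j y) = y := by
  apply mask_ext (length_swp _ _ _ _) hy
  intro k hk
  rw [swp_eq, getD_mk _ hk, swp_eq, getD_mk]
  · congr 1
    split_ifs <;> simp_all
  · split_ifs <;> omega

theorem cnt_swp {N i j : ℕ} {y : List Bool} (hi : i < N) (hj : j < N) (hy : y.length = N) :
    cntT (swp N i j y) = cntT y := by
  rw [cntT_eq (length_swp _ _ _ _), cntT_eq hy]
  apply Finset.card_bij' (fun k _ => if k = i then j else if k = j then i else k)
    (fun k _ => if k = i then j else if k = j then i else k)
  · intro k hk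
    rw [mem_fs] at hk ⊢
    rw [swp_eq, getD_mk _ hk.1] at hk
    refine ⟨?_, hk.2⟩
    split_ifs <;> omega
  · intro k hk
    rw [mem_fs] at hk ⊢
    have h1 : (if k = i then j else if k = j then i else k) < N := by split_ifs <;> omega
    refine ⟨h1, ?_⟩
    rw [swp_eq, getD_mk _ h1, ← hk.2]
    congr 1
    split_ifs <;> simp_all
  · intro k hk
    split_ifs <;> simp_all
  · intro k hk
    split_ifs <;> simp_all

/-! ### The greedy basis -/

section

variable {N : ℕ} {I : List Bool → Bool}

/-- stages of the greedy algorithm -/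
def gst (N : ℕ) (I : List Bool → Bool) (k : ℕ) : List Bool :=
  (List.range k).foldl (fun y k => if I (setT N k y) = true then setT N k y else y)
    ((List.range N).map fun _ => false)

theorem gst_succ (N : ℕ) (I : List Bool → Bool) (k : ℕ) : gst N I (k + 1) =
    if I (setT N k (gst N I k)) = true then setT N k (gst N I k) else gst N I k := by
  unfold gst
  rw [List.range_succ, List.foldl_append]
  rfl

theorem length_gst (N : ℕ) (I : List Bool → Bool) (k : ℕ) : (gst N I k).length = N := by
  induction k with
  | zero => simp [gst]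
  | succ k ih =>
    rw [gst_succ]
    split_ifs
    · exact length_setT _ _ _
    · exact ih

theorem getD_lt {y : List Bool} {i : ℕ} (h : y.getD i false = true) : i < y.length := by
  by_contra h1
  rw [List.getD_eq_default _ _ (by omega)] at h
  exact absurd h (by simp)

theorem gst_mono1 (k i : ℕ) (h : (gst N I k).getD i false = true) :
    (gst N I (k + 1)).getD i false = true := by
  rw [gst_succ]
  split_ifs
  · have hi := getD_lt h
    rw [length_gst] at hi
    rw [setT_eq, getD_mk _ hi]
    split_ifs
    · rfl
    · exact h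
  · exact h

theorem gst_mono {k m : ℕ} (hkm : k ≤ m) (i : ℕ) (h : (gst N I k).getD i false = true) :
    (gst N I m).getD i false = true := by
  induction m, hkm using Nat.le_induction with
  | base => exact h
  | succ m _ ih => exact gst_mono1 m i ih

theorem grd_eq : grd N I = gst N I N := rfl

theorem isBase_grd (h : IndSys N I) : IsBase N I (grd N I) := by
  have hI : ∀ k, I (gst N I k) = true := by
    intro k
    induction k with
    | zero => exact h.empty
    | succ k ih =>
      rw [gst_succ]
      split_ifs with h1
      · exact h1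
      · exact ih
  refine ⟨by rw [grd_eq]; exact length_gst _ _ _, hI N, ?_⟩
  intro z hz hIz
  by_contra hlt
  push Not at hlt
  obtain ⟨i, hi, h1, _, h3⟩ := h.aug (grd N I) z (by rw [grd_eq]; exact length_gst _ _ _) hz (hI N) hIz
    hlt
  have h4 : I (setT N i (gst N I i)) = true := by
    refine h.hered (setT N i (grd N I)) _ (length_setT _ _ _) (length_setT _ _ _) ?_ h3
    intro j hj
    have hjN := getD_lt hj
    rw [length_setT] at hjN
    rw [setT_eq, getD_mk _ hjN] at hj ⊢
    split_ifs at hj ⊢ with h5
    · rfl
    · rw [grd_eq]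
      exact gst_mono hi.le j hj
  have h5 : (gst N I (i + 1)).getD i false = true := by
    rw [gst_succ, if_pos h4, setT_eq, getD_mk _ hi, if_pos rfl]
  have h6 := gst_mono (show i + 1 ≤ N from hi) i h5
  rw [← grd_eq, h1] at h6
  exact absurd h6 (by simp)

theorem isBase_iff (h : IndSys N I) {y : List Bool} (hy : y.length = N) :
    IsBase N I y ↔ I y = true ∧ cntT y = cntT (grd N I) := by
  have hg := isBase_grd h
  constructor
  · rintro ⟨_, h2, h3⟩
    exact ⟨h2, le_antisymm (hg.2.2 y hy h2) (h3 _ hg.1 hg.2.1)⟩
  · rintro ⟨h1, h2⟩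
    exact ⟨hy, h1, fun z hz hIz => by rw [h2]; exact hg.2.2 z hz hIz⟩

/-- the finite set of the bases -/
def Bs (N : ℕ) (I : List Bool → Bool) : Finset (List Bool) := (bss N I (allM N)).toFinset

theorem nodup_bss (N : ℕ) (I : List Bool → Bool) : (bss N I (allM N)).Nodup :=
  (nodup_allM N).filter _

theorem mem_Bs' {y : List Bool} :
    y ∈ Bs N I ↔ y.length = N ∧ I y = true ∧ cntT y = cntT (grd N I) := by
  unfold Bs bss
  rw [List.mem_toFinset, List.mem_filter, mem_allM]
  simp

theorem mem_Bs (h : IndSys N I) {y : List Bool} : y ∈ Bs N I ↔ IsBase N I y := by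
  rw [mem_Bs']
  constructor
  · rintro ⟨h1, h2⟩
    exact (isBase_iff h h1).2 h2
  · intro hy
    exact ⟨hy.1, (isBase_iff h hy.1).1 hy⟩

theorem grd_mem (h : IndSys N I) : grd N I ∈ Bs N I := (mem_Bs h).2 (isBase_grd h)

theorem card_Bs : (Bs N I).card = (bss N I (allM N)).length :=
  List.toFinset_card_of_nodup (nodup_bss N I)

theorem card_Bs_le : (Bs N I).card ≤ 2 ^ N := by
  rw [card_Bs, ← length_allM N]
  exact List.length_filter_le _ _

/-! ### The moves -/

theorem mov_mem (B v : ℕ) {y : List Bool} (hy : y ∈ Bs N I) : mov N B I v y ∈ Bs N I := by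
  unfold mov
  split_ifs with h1
  · rw [mem_Bs'] at hy ⊢
    exact ⟨length_swp _ _ _ _, h1.2.2, by rw [cnt_swp h1.1 h1.2.1 hy.1, hy.2.2]⟩
  · exact hy

theorem mov_mov (B v : ℕ) {y : List Bool} (hy : y ∈ Bs N I) : mov N B I v (mov N B I v y) = y := by
  rw [mem_Bs'] at hy
  by_cases h1 : v / B < N ∧ v % B < N ∧ I (swp N (v / B) (v % B) y) = true
  · have e : mov N B I v y = swp N (v / B) (v % B) y := if_pos h1
    have e2 : swp N (v / B) (v % B) (swp N (v / B) (v % B) y) = y := swp_swp h1.1 h1.2.1 hy.1
    rw [e]
    unfold mov
    rw [if_pos ⟨h1.1, h1.2.1, by rw [e2]; exact hy.2.1⟩, e2]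
  · have e : mov N B I v y = y := if_neg h1
    rw [e, e]

end

end Pool.Agent.H73.ST
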